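import Pool.Agent.Helper72.LM.Ep

set_option autoImplicit false
open MeasureTheory Set
open scoped ENNReal Matrix

namespace Pool.Agent.Helper72.LM

/-- support function -/
noncomputable def hK {n : ℕ} (K : Set (Fin n → ℝ)) (y : Fin n → ℝ) : ℝ :=
  sSup ((fun x : Fin n → ℝ => ∑ i, x i * y i) '' K)

noncomputable def Ei {n : ℕ} (K : Set (Fin n → ℝ)) (y : Fin n → ℝ) : ℝ≥0∞ :=
  ENNReal.ofReal (Real.exp (-hK K y))

theorem Bd.nonempty {n : ℕ} {K : Set (Fin n → ℝ)} (h : Bd K) : K.Nonempty :=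
  h.int.mono interior_subset

theorem le_hK {n : ℕ} {K : Set (Fin n → ℝ)} (h : Bd K) (y : Fin n → ℝ) {x : Fin n → ℝ}
    (hx : x ∈ K) : ∑ i, x i * y i ≤ hK K y := by
  obtain ⟨C, hC⟩ := h.bound y
  refine le_csSup ⟨C, ?_⟩ ⟨x, hx, rfl⟩
  rintro _ ⟨z, hz, rfl⟩
  exact hC z hz

theorem hK_le {n : ℕ} {K : Set (Fin n → ℝ)} (h : Bd K) {y : Fin n → ℝ} {C : ℝ}
    (hC : ∀ x ∈ K, ∑ i, x i * y i ≤ C) : hK K y ≤ C := by
  refine csSup_le (h.nonempty.image _) ?_
  rintro _ ⟨z, hz, rfl⟩
  exact hC z hz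

theorem continuous_hK {n : ℕ} {K : Set (Fin n → ℝ)} (h : Bd K) : Continuous (hK K) := by
  have := IsCompact.continuous_sSup (f := fun (y x : Fin n → ℝ) => ∑ i, x i * y i) h.cpt
    (by unfold Function.HasUncurry.uncurry Function.hasUncurryInduction; simp only [Function.uncurry]
        unfold Function.HasUncurry.uncurry Function.hasUncurryBase; simp only [id]; fun_prop)
  exact this

theorem good_Ei (m : ℕ) : Good m 0 Ei where
  q0 := le_rfl
  meas K hK := by
    unfold Ei
    have := (continuous_hK hK).measurable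
    fun_prop
  pos K hK y := by
    unfold Ei
    simp [Real.exp_pos]
  aff K h M c hM y := by
    unfold Ei
    rw [← ENNReal.ofReal_mul (Real.exp_pos _).le, ← Real.exp_add]
    congr 2
    have e : hK ((fun x => M *ᵥ x + c) '' K) y = hK K (Mᵀ *ᵥ y) + ∑ i, c i * y i := by
      have e1 : ∀ x : Fin (m + 1) → ℝ, ∑ i, (M *ᵥ x + c) i * y i =
          ∑ i, x i * (Mᵀ *ᵥ y) i + ∑ i, c i * y i := by
        intro x
        simp only [sum_dot]
        rw [add_dotProduct, Matrix.dotProduct_mulVec x Mᵀ y, Matrix.vecMul_transpose]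
      apply le_antisymm
      · apply hK_le (h.aff hM c)
        rintro _ ⟨x, hx, rfl⟩
        rw [e1]
        linarith [le_hK h (Mᵀ *ᵥ y) hx]
      · rw [← le_sub_iff_add_le]
        apply hK_le h
        intro x hx
        have := le_hK (h.aff hM c) y (mem_image_of_mem (fun x => M *ᵥ x + c) hx)
        rw [e1] at this
        linarith
    rw [e]; ring
  shear K h α hα t0 t1 w0 w1 h0 h1 hw y0 y1 hy := by
    unfold Ei
    rw [ENNReal.ofReal_rpow_of_pos (Real.exp_pos _), ENNReal.ofReal_rpow_of_pos (Real.exp_pos _),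
      ← ENNReal.ofReal_mul (by positivity), ← Real.exp_mul, ← Real.exp_mul, ← Real.exp_add]
    apply ENNReal.ofReal_le_ofReal
    apply Real.exp_le_exp.2
    have key : hK K (w0 • y0 + w1 • y1) ≤ hK (sh α t0 '' K) y0 * w0 + hK (sh α t1 '' K) y1 * w1 := by
      apply hK_le h
      intro x hx
      have a0 := le_hK (h.sh hα t0) y0 (mem_image_of_mem (sh α t0) hx)
      have a1 := le_hK (h.sh hα t1) y1 (mem_image_of_mem (sh α t1) hx)
      have e : ∀ (t : ℝ) (y : Fin (m + 1) → ℝ), ∑ i, sh α t x i * y i =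
          ∑ i, x i * y i + t * α x * y 0 := by
        intro t y
        unfold sh
        simp [add_mul, Finset.sum_add_distrib, Pi.single_apply]
      rw [e] at a0 a1
      simp only [Pi.add_apply, Pi.smul_apply, smul_eq_mul, mul_add, Finset.sum_add_distrib]
      have e1 : ∑ i, x i * (w0 * y0 i) = (∑ i, x i * y0 i) * w0 := by
        rw [Finset.sum_mul]; exact Finset.sum_congr rfl fun i _ => by ring
      have e2 : ∑ i, x i * (w1 * y1 i) = (∑ i, x i * y1 i) * w1 := by
        rw [Finset.sum_mul]; exact Finset.sum_congr rfl fun i _ => by ring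
      rw [e1, e2]
      have b0 := mul_le_mul_of_nonneg_right a0 h0.le
      have b1 := mul_le_mul_of_nonneg_right a1 h1.le
      have : α x * (w0 * t0 * y0 0 + w1 * t1 * y1 0) = 0 := by rw [hy, mul_zero]
      nlinarith
    linarith
  mono K P hK hP hKP κ hκ hv y := by
    rw [Real.rpow_zero, ENNReal.ofReal_one, one_mul]
    unfold Ei
    apply ENNReal.ofReal_le_ofReal
    apply Real.exp_le_exp.2
    apply neg_le_neg
    exact hK_le hK fun x hx => le_hK hP y (hKP hx)
  low K hK y C hC := by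
    unfold Ei
    apply ENNReal.ofReal_le_ofReal
    apply Real.exp_le_exp.2
    exact neg_le_neg (hK_le hK hC)

end Pool.Agent.Helper72.LM
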