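import Pool.Agent.Helper72.LM.Poly3
import Pool.Agent.Helper72.LM.Ei

set_option autoImplicit false
open MeasureTheory Set
open scoped ENNReal Matrix

namespace Pool.Agent.Helper72.LM

/-- a compact subset of an open convex set is contained in a polytope inside this set -/
theorem exists_polytope {n : ℕ} {K U : Set (Fin n → ℝ)} (hK : IsCompact K) (hU : IsOpen U)
    (hUc : Convex ℝ U) (hKU : K ⊆ U) :
    ∃ S : Finset (Fin n → ℝ), K ⊆ convexHull ℝ (S : Set (Fin n → ℝ)) ∧
      convexHull ℝ (S : Set (Fin n → ℝ)) ⊆ U := by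
  classical
  have h1 : ∀ x ∈ K, ∃ S : Finset (Fin n → ℝ), x ∈ interior (convexHull ℝ (S : Set (Fin n → ℝ))) ∧
      convexHull ℝ (S : Set (Fin n → ℝ)) ⊆ U := by
    intro x hx
    obtain ⟨b, hb1, hb2⟩ := exists_mem_interior_convexHull_affineBasis (hU.mem_nhds (hKU hx))
    refine ⟨(finite_range b).toFinset, ?_, ?_⟩
    · simpa using hb1
    · simpa using hb2
  choose! S hS1 hS2 using h1
  obtain ⟨t, htK, ht⟩ := hK.elim_nhds_subcover
    (fun x => interior (convexHull ℝ (S x : Set (Fin n → ℝ))))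
    (fun x hx => isOpen_interior.mem_nhds (hS1 x hx))
  refine ⟨t.biUnion S, ?_, ?_⟩
  · intro x hx
    obtain ⟨y, hy, hxy⟩ := mem_iUnion₂.1 (ht hx)
    refine convexHull_mono ?_ (interior_subset hxy)
    intro z hz
    simp only [Finset.coe_biUnion, mem_iUnion]
    exact ⟨y, hy, hz⟩
  · refine convexHull_min ?_ hUc
    intro z hz
    simp only [Finset.coe_biUnion, mem_iUnion] at hz
    obtain ⟨y, hy, hz⟩ := hz
    exact hS2 y (htK y hy) (subset_convexHull ℝ _ hz)

/-- passing from polytopes to convex bodies -/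
theorem Vp_approx {m : ℕ} {q : ℝ} {E : Set (Fin (m + 1) → ℝ) → (Fin (m + 1) → ℝ) → ℝ≥0∞}
    (hE : Good m q E) {c : ℝ≥0∞}
    (hc : ∀ S : Finset (Fin (m + 1) → ℝ), Bd (convexHull ℝ (S : Set (Fin (m + 1) → ℝ))) →
      c ≤ Vp E (convexHull ℝ (S : Set (Fin (m + 1) → ℝ))))
    {K : Set (Fin (m + 1) → ℝ)} (hK : Bd K) (hconv : Convex ℝ K) : c ≤ Vp E K := by
  obtain ⟨x0, hx0⟩ := hK.int
  have key : ∀ r : ℝ, 1 < r → c ≤ ENNReal.ofReal ((r ^ (m + 1)) ^ (1 + q)) * Vp E K := by
    intro r hr
    have h1 := hconv.closure_subset_image_homothety_interior_of_one_lt hx0 r hr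
    rw [hK.cpt.isClosed.closure_eq] at h1
    have hopen : IsOpen (AffineMap.homothety x0 r '' interior K) :=
      (AffineMap.homothety_isOpenMap x0 r (by positivity)) _ isOpen_interior
    have hcv : Convex ℝ (AffineMap.homothety x0 r '' interior K) :=
      hconv.interior.affine_image _
    obtain ⟨S, hS1, hS2⟩ := exists_polytope hK.cpt hopen hcv h1
    set P := convexHull ℝ (S : Set (Fin (m + 1) → ℝ)) with hP
    have hPb : Bd P := ⟨S.finite_toSet.isCompact_convexHull ℝ, hK.int.mono (interior_mono hS1)⟩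
    have r1 : (1 : ℝ) ≤ r ^ (m + 1) := one_le_pow₀ hr.le
    have hvol : volume P ≤ ENNReal.ofReal (r ^ (m + 1)) * volume K := by
      refine (measure_mono hS2).trans ?_
      rw [Measure.addHaar_image_homothety, Module.finrank_fin_fun, abs_of_nonneg (by positivity)]
      exact mul_le_mul_right (measure_mono interior_subset) _
    have hIz : ∀ z, Iz E P z ≤ ENNReal.ofReal ((r ^ (m + 1)) ^ q) * Iz E K z := by
      intro z
      unfold Iz
      rw [← lintegral_const_mul' _ _ ENNReal.ofReal_ne_top]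
      refine lintegral_mono fun y => ?_
      simp only
      rw [← mul_assoc]
      exact mul_le_mul_left (hE.mono K P hK hPb hS1 _ r1 hvol y) _
    have hinf : (⨅ z, Iz E P z) ≤ ENNReal.ofReal ((r ^ (m + 1)) ^ q) * ⨅ z, Iz E K z := by
      rw [ENNReal.mul_iInf_of_ne]
      · exact iInf_mono hIz
      · have : 0 < (r ^ (m + 1)) ^ q := by positivity
        simpa using this
      · exact ENNReal.ofReal_ne_top
    refine (hc S hPb).trans ?_
    unfold Vp
    refine (mul_le_mul' hvol hinf).trans (le_of_eq ?_)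
    rw [Real.rpow_add (by positivity), Real.rpow_one, ENNReal.ofReal_mul (by positivity)]
    ring
  rcases eq_or_ne (Vp E K) ⊤ with h | h
  · rw [h]; exact le_top
  have hlim : Filter.Tendsto (fun r : ℝ => ENNReal.ofReal ((r ^ (m + 1)) ^ (1 + q)) * Vp E K)
      (nhdsWithin 1 (Ioi 1)) (nhds (Vp E K)) := by
    have h0 : Filter.Tendsto (fun r : ℝ => ENNReal.ofReal ((r ^ (m + 1)) ^ (1 + q)))
        (nhds 1) (nhds 1) := by
      have hca : ContinuousAt (fun r : ℝ => (r ^ (m + 1)) ^ (1 + q)) 1 := by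
        apply ContinuousAt.rpow_const
        · fun_prop
        · left; simp
      have := ENNReal.tendsto_ofReal hca.tendsto
      simpa using this
    have h1 := ENNReal.Tendsto.mul_const (b := Vp E K) h0 (Or.inr h)
    rw [one_mul] at h1
    exact h1.mono_left nhdsWithin_le_nhds
  refine ge_of_tendsto hlim ?_
  filter_upwards [self_mem_nhdsWithin] with r hr
  exact key r hr

end Pool.Agent.Helper72.LM
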