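import Pool.Graph.R_pool_sql_team_ae5b0c61.H26.PL

set_option autoImplicit false
open MeasureTheory Set
open scoped ENNReal

namespace Pool.Agent.Helper72.LM
open Pool.Agent.H26.PL

theorem lin_core {a b : ℝ} (ha : 0 < a) (hb : 0 < b) {f g h : ℝ → ℝ≥0∞}
    (hf : Measurable f) (hg : Measurable g) (hh : Measurable h) (f1 : ⨆ x, f x = 1)
    (g1 : ⨆ x, g x = 1)
    (H : ∀ (t : ℝ), 0 < t → t < 1 → ∀ x y, ENNReal.ofReal t < f x → ENNReal.ofReal t < g y →
      ENNReal.ofReal t < h (a * x + b * y)) :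
    ENNReal.ofReal a * (∫⁻ x, f x) + ENNReal.ofReal b * (∫⁻ x, g x) ≤ ∫⁻ x, h x := by
  have f2 : ∀ x, f x ≤ 1 := fun x => f1 ▸ le_iSup f x
  have g2 : ∀ x, g x ≤ 1 := fun x => g1 ▸ le_iSup g x
  refine le_trans ?_
    (lintegral_mono (f := fun x => min (h x) 1) fun x => min_le_left _ _)
  rw [layer hf f2, layer hg g2, layer (hh.min measurable_const) (fun x => min_le_right _ _),
    ← lintegral_const_mul _ meas_level, ← lintegral_const_mul _ meas_level,
    ← lintegral_add_left (meas_level.const_mul _)]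
  apply setLIntegral_mono' measurableSet_Ioo
  intro t ht
  have t1 : ENNReal.ofReal t < 1 := by simpa using ht.2
  refine bm_one ha hb (measurableSet_lt measurable_const hf) (measurableSet_lt measurable_const hg)
    (lt_iSup_iff.1 (show ENNReal.ofReal t < ⨆ x, f x from f1 ▸ t1))
    (lt_iSup_iff.1 (show ENNReal.ofReal t < ⨆ x, g x from g1 ▸ t1)) ?_
  intro x hx y hy
  exact lt_min (H t ht.1 ht.2 x y hx hy) t1

theorem real_key {a b M0 M1 x y : ℝ} (ha : 0 < a) (hb : 0 < b) (hab : a + b = 1)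
    (h0 : 0 < M0) (h1 : 0 < M1) (hx : 0 < x) (hy : 0 < y) :
    (a / M0 + b / M1)⁻¹ ≤ (x ^ 2 * M0) ^ (a * x / (a * x + b * y)) *
      (y ^ 2 * M1) ^ (b * y / (a * x + b * y)) / (a * x + b * y) ^ 2 := by
  set v := a * x + b * y with hv
  have v0 : 0 < v := by positivity
  set w0 := a * x / v with hw0
  set w1 := b * y / v with hw1
  have hw : w0 + w1 = 1 := by rw [hw0, hw1]; field_simp; exact hv.symm
  have w00 : 0 < w0 := by positivity
  have w10 : 0 < w1 := by positivity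
  set m0 := Real.sqrt M0 with hm0
  set m1 := Real.sqrt M1 with hm1
  have m00 : 0 < m0 := Real.sqrt_pos.2 h0
  have m10 : 0 < m1 := Real.sqrt_pos.2 h1
  have e0 : M0 = m0 ^ 2 := (Real.sq_sqrt h0.le).symm
  have e1 : M1 = m1 ^ 2 := (Real.sq_sqrt h1.le).symm
  have key := Real.geom_mean_le_arith_mean2_weighted w00.le w10.le
    (show (0 : ℝ) ≤ v / (x * m0) by positivity) (show (0 : ℝ) ≤ v / (y * m1) by positivity) hw
  have key2 : w0 * (v / (x * m0)) + w1 * (v / (y * m1)) = a / m0 + b / m1 := by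
    rw [hw0, hw1]; field_simp
  rw [key2, Real.div_rpow v0.le (by positivity), Real.div_rpow v0.le (by positivity),
    div_mul_div_comm, ← Real.rpow_add v0, hw, Real.rpow_one] at key
  have e2 : (x ^ 2 * M0) ^ w0 = ((x * m0) ^ w0) ^ 2 := by
    rw [e0, ← mul_pow, ← Real.rpow_natCast, ← Real.rpow_mul (by positivity),
      ← Real.rpow_natCast, ← Real.rpow_mul (by positivity), mul_comm w0]
  have e3 : (y ^ 2 * M1) ^ w1 = ((y * m1) ^ w1) ^ 2 := by
    rw [e1, ← mul_pow, ← Real.rpow_natCast, ← Real.rpow_mul (by positivity),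
      ← Real.rpow_natCast, ← Real.rpow_mul (by positivity), mul_comm w1]
  rw [e2, e3]
  have p0 : 0 < (x * m0) ^ w0 := by positivity
  have p1 : 0 < (y * m1) ^ w1 := by positivity
  set P := (x * m0) ^ w0 * (y * m1) ^ w1 with hP
  have P0 : 0 < P := by positivity
  have e4 : ((x * m0) ^ w0) ^ 2 * ((y * m1) ^ w1) ^ 2 / v ^ 2 = ((v / P) ^ 2)⁻¹ := by
    rw [hP]; field_simp
  rw [e4]
  apply inv_anti₀ (by positivity)
  have e5 : (v / P) ^ 2 ≤ (a / m0 + b / m1) ^ 2 := by
    apply pow_le_pow_left₀ (by positivity) key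
  refine e5.trans ?_
  rw [e0, e1]
  have e6 : a / m0 ^ 2 + b / m1 ^ 2 - (a / m0 + b / m1) ^ 2 = a * b * (1 / m0 - 1 / m1) ^ 2 := by
    have : b = 1 - a := by linarith
    subst this
    field_simp
    ring
  nlinarith [mul_nonneg (mul_pos ha hb).le (sq_nonneg (1 / m0 - 1 / m1))]

/-- inversion of the variable on the half line -/
noncomputable def hat (F : ℝ → ℝ≥0∞) : ℝ → ℝ≥0∞ :=
  (Ioi (0 : ℝ)).indicator fun v => ENNReal.ofReal ((v ^ 2)⁻¹) * F v⁻¹

theorem measurable_hat {F : ℝ → ℝ≥0∞} (hF : Measurable F) : Measurable (hat F) := by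
  unfold hat
  apply Measurable.indicator _ measurableSet_Ioi
  fun_prop

theorem lintegral_hat (F : ℝ → ℝ≥0∞) : ∫⁻ u in Ioi (0 : ℝ), F u = ∫⁻ v, hat F v := by
  unfold hat
  rw [lintegral_indicator measurableSet_Ioi]
  have e := lintegral_image_eq_lintegral_abs_deriv_mul (s := Ioi (0 : ℝ)) (f := fun v => v⁻¹)
    (f' := fun v => -(v ^ 2)⁻¹) measurableSet_Ioi
    (fun x hx => (hasDerivAt_inv (ne_of_gt hx)).hasDerivWithinAt)
    (fun x _ y _ h => inv_injective h) F
  have e2 : (fun v : ℝ => v⁻¹) '' Ioi 0 = Ioi 0 := by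
    ext x
    simp only [mem_image, mem_Ioi]
    constructor
    · rintro ⟨y, hy, rfl⟩; positivity
    · intro hx; exact ⟨x⁻¹, by positivity, inv_inv x⟩
  rw [e2] at e
  rw [e]
  apply setLIntegral_congr_fun measurableSet_Ioi
  intro v hv
  simp only [abs_neg]
  rw [abs_of_nonneg (by positivity)]

end Pool.Agent.Helper72.LM
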