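import Pool.Agent.Helper72.LM.Ball

set_option autoImplicit false
open MeasureTheory Set
open scoped ENNReal

namespace Pool.Agent.Helper72.LM
open Pool.Agent.H26.PL

theorem hat_lt {F : ℝ → ℝ≥0∞} {x c : ℝ} (hc : 0 ≤ c) (h : ENNReal.ofReal c < hat F x) :
    0 < x ∧ ENNReal.ofReal (x ^ 2 * c) < F x⁻¹ := by
  unfold hat at h
  rw [indicator_apply] at h
  split_ifs at h with hx
  · rw [mem_Ioi] at hx
    refine ⟨hx, ?_⟩
    have x2 : 0 < x ^ 2 := by positivity
    rw [ENNReal.ofReal_mul x2.le]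
    have h3 : ENNReal.ofReal (x ^ 2) ≠ 0 := by simpa using ne_of_gt hx
    have h4 := ENNReal.mul_lt_mul_right (a := ENNReal.ofReal (x ^ 2)) h3 ENNReal.ofReal_ne_top h
    refine h4.trans_le (le_of_eq ?_)
    rw [← mul_assoc, ← ENNReal.ofReal_mul x2.le, mul_inv_cancel₀ x2.ne', ENNReal.ofReal_one,
      one_mul]
  · exact absurd h (by simp)

theorem ball_bdd {a b : ℝ} (ha : 0 < a) (hb : 0 < b) (hab : a + b = 1) {F F0 F1 : ℝ → ℝ≥0∞}
    (mF : Measurable F) (mF0 : Measurable F0) (mF1 : Measurable F1)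
    (H : ∀ x y : ℝ, 0 < x → 0 < y → F0 x⁻¹ ^ (a * x / (a * x + b * y)) *
      F1 y⁻¹ ^ (b * y / (a * x + b * y)) ≤ F (a * x + b * y)⁻¹) (n : ℕ) :
    min (∫⁻ v, min (hat F0 v) n) (∫⁻ v, min (hat F1 v) n) ≤ ∫⁻ v, hat F v := by
  set f : ℝ → ℝ≥0∞ := fun v => min (hat F0 v) n with hf
  set g : ℝ → ℝ≥0∞ := fun v => min (hat F1 v) n with hg
  have mf : Measurable f := (measurable_hat mF0).min measurable_const
  have mg : Measurable g := (measurable_hat mF1).min measurable_const
  set M0 := ⨆ x, f x with hM0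
  set M1 := ⨆ x, g x with hM1
  have M0t : M0 ≠ ⊤ := ((iSup_le fun x => min_le_right _ _).trans_lt (ENNReal.natCast_lt_top n)).ne
  have M1t : M1 ≠ ⊤ := ((iSup_le fun x => min_le_right _ _).trans_lt (ENNReal.natCast_lt_top n)).ne
  rcases eq_or_ne M0 0 with z0 | z0
  · have : ∀ x, f x = 0 := fun x => le_antisymm (z0 ▸ le_iSup f x) zero_le
    refine (min_le_left _ _).trans ?_
    rw [lintegral_congr this]; simp
  rcases eq_or_ne M1 0 with z1 | z1
  · have : ∀ x, g x = 0 := fun x => le_antisymm (z1 ▸ le_iSup g x) zero_le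
    refine (min_le_right _ _).trans ?_
    rw [lintegral_congr this]; simp
  set m0 := M0.toReal with hm0
  set m1 := M1.toReal with hm1
  have p0 : 0 < m0 := ENNReal.toReal_pos z0 M0t
  have p1 : 0 < m1 := ENNReal.toReal_pos z1 M1t
  have e0 : M0 = ENNReal.ofReal m0 := (ENNReal.ofReal_toReal M0t).symm
  have e1 : M1 = ENNReal.ofReal m1 := (ENNReal.ofReal_toReal M1t).symm
  have k0 : 0 < a / m0 + b / m1 := by positivity
  have key := lin_core ha hb (f := fun x => M0⁻¹ * f x) (g := fun x => M1⁻¹ * g x)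
    (h := fun x => ENNReal.ofReal (a / m0 + b / m1) * hat F x) (mf.const_mul _) (mg.const_mul _)
    ((measurable_hat mF).const_mul _)
    (by rw [← ENNReal.mul_iSup, ENNReal.inv_mul_cancel z0 M0t])
    (by rw [← ENNReal.mul_iSup, ENNReal.inv_mul_cancel z1 M1t]) (fun t t0 t1 x y hx hy => by
      have hx2 : ENNReal.ofReal (m0 * t) < hat F0 x := by
        have := ENNReal.mul_lt_mul_right (a := M0) z0 M0t hx
        rw [← mul_assoc, ENNReal.mul_inv_cancel z0 M0t, one_mul] at this
        rw [ENNReal.ofReal_mul p0.le, ← e0]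
        exact this.trans_le (min_le_left _ _)
      have hy2 : ENNReal.ofReal (m1 * t) < hat F1 y := by
        have := ENNReal.mul_lt_mul_right (a := M1) z1 M1t hy
        rw [← mul_assoc, ENNReal.mul_inv_cancel z1 M1t, one_mul] at this
        rw [ENNReal.ofReal_mul p1.le, ← e1]
        exact this.trans_le (min_le_left _ _)
      obtain ⟨x0, hx3⟩ := hat_lt (by positivity) hx2
      obtain ⟨y0, hy3⟩ := hat_lt (by positivity) hy2
      set v := a * x + b * y with hv
      have v0 : 0 < v := by positivity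
      have w0 : 0 < a * x / v := by positivity
      have w1 : 0 < b * y / v := by positivity
      have ww : a * x / v + b * y / v = 1 := by field_simp; exact hv.symm
      have s1 := ENNReal.mul_lt_mul (ENNReal.rpow_lt_rpow hx3 w0) (ENNReal.rpow_lt_rpow hy3 w1)
      have s2 := s1.trans_le (H x y x0 y0)
      rw [ENNReal.ofReal_rpow_of_pos (by positivity), ENNReal.ofReal_rpow_of_pos (by positivity),
        ← ENNReal.ofReal_mul (by positivity)] at s2
      have s3 : (x ^ 2 * (m0 * t)) ^ (a * x / v) * (y ^ 2 * (m1 * t)) ^ (b * y / v) =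
          t * ((x ^ 2 * m0) ^ (a * x / v) * (y ^ 2 * m1) ^ (b * y / v)) := by
        rw [← mul_assoc, ← mul_assoc, Real.mul_rpow (by positivity) t0.le,
          Real.mul_rpow (by positivity) t0.le]
        have : t = t ^ (a * x / v) * t ^ (b * y / v) := by
          rw [← Real.rpow_add t0, ww, Real.rpow_one]
        nth_rewrite 3 [this]
        ring
      rw [s3] at s2
      have s4 := real_key ha hb hab p0 p1 x0 y0
      rw [← hv] at s4
      set Q := (x ^ 2 * m0) ^ (a * x / v) * (y ^ 2 * m1) ^ (b * y / v) with hQ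
      have s5 : t ≤ (a / m0 + b / m1) * ((v ^ 2)⁻¹ * (t * Q)) := by
        have := mul_le_mul_of_nonneg_left s4 (mul_pos k0 t0).le
        have e : (a / m0 + b / m1) * t * (a / m0 + b / m1)⁻¹ = t := by field_simp
        rw [e] at this
        calc t ≤ _ := this
          _ = _ := by ring
      refine (ENNReal.ofReal_le_ofReal s5).trans_lt ?_
      rw [ENNReal.ofReal_mul k0.le, ENNReal.ofReal_mul (by positivity)]
      have v1 : v ∈ Ioi (0 : ℝ) := v0
      simp only [hat, indicator_of_mem v1]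
      refine ENNReal.mul_lt_mul_right (by simpa using k0) ENNReal.ofReal_ne_top ?_
      refine ENNReal.mul_lt_mul_right ?_ ENNReal.ofReal_ne_top s2
      simpa using v0.ne')
  rw [lintegral_const_mul _ mf, lintegral_const_mul _ mg, lintegral_const_mul _ (measurable_hat mF),
    ← mul_assoc, ← mul_assoc] at key
  have e2 : ENNReal.ofReal (a / m0 + b / m1) = ENNReal.ofReal a * M0⁻¹ + ENNReal.ofReal b * M1⁻¹ := by
    rw [e0, e1, ← ENNReal.ofReal_inv_of_pos p0, ← ENNReal.ofReal_inv_of_pos p1,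
      ← ENNReal.ofReal_mul ha.le, ← ENNReal.ofReal_mul hb.le,
      ← ENNReal.ofReal_add (by positivity) (by positivity)]
    rfl
  have key2 : ENNReal.ofReal (a / m0 + b / m1) * min (∫⁻ v, f v) (∫⁻ v, g v) ≤
      ENNReal.ofReal (a / m0 + b / m1) * ∫⁻ v, hat F v := by
    refine le_trans ?_ key
    rw [e2, add_mul]
    exact add_le_add (mul_le_mul_right (min_le_left _ _) _) (mul_le_mul_right (min_le_right _ _) _)
  exact (ENNReal.mul_le_mul_iff_right (by simpa using k0) ENNReal.ofReal_ne_top).1 key2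

theorem ball_min {a b : ℝ} (ha : 0 < a) (hb : 0 < b) (hab : a + b = 1) {F F0 F1 : ℝ → ℝ≥0∞}
    (mF : Measurable F) (mF0 : Measurable F0) (mF1 : Measurable F1)
    (H : ∀ x y : ℝ, 0 < x → 0 < y → F0 x⁻¹ ^ (a * x / (a * x + b * y)) *
      F1 y⁻¹ ^ (b * y / (a * x + b * y)) ≤ F (a * x + b * y)⁻¹) :
    min (∫⁻ u in Ioi (0 : ℝ), F0 u) (∫⁻ u in Ioi (0 : ℝ), F1 u) ≤ ∫⁻ u in Ioi (0 : ℝ), F u := by
  rw [lintegral_hat, lintegral_hat, lintegral_hat, trunc (measurable_hat mF0),
    trunc (measurable_hat mF1)]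
  change _ ⊓ _ ≤ _
  rw [← iSup_inf_of_monotone]
  · exact iSup_le fun n => ball_bdd ha hb hab mF mF0 mF1 H n
  · exact fun k l hkl => lintegral_mono fun x => min_le_min le_rfl (by exact_mod_cast hkl)
  · exact fun k l hkl => lintegral_mono fun x => min_le_min le_rfl (by exact_mod_cast hkl)

end Pool.Agent.Helper72.LM
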