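import Pool.Agent.Helper72.LM.Good

set_option autoImplicit false
open MeasureTheory Set
open scoped ENNReal Matrix

namespace Pool.Agent.Helper72.LM

theorem Bd.vol_ne_zero {n : ℕ} {K : Set (Fin n → ℝ)} (hK : Bd K) : volume K ≠ 0 :=
  ((isOpen_interior.measure_pos _ hK.int).trans_le (measure_mono interior_subset)).ne'

theorem Bd.vol_ne_top {n : ℕ} {K : Set (Fin n → ℝ)} (hK : Bd K) : volume K ≠ ⊤ :=
  hK.cpt.measure_lt_top.ne

theorem Bd.bound {n : ℕ} {K : Set (Fin n → ℝ)} (hK : Bd K) (y : Fin n → ℝ) :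
    ∃ C : ℝ, ∀ x ∈ K, ∑ i, x i * y i ≤ C := by
  have hc : ContinuousOn (fun x : Fin n → ℝ => ∑ i, x i * y i) K := by fun_prop
  obtain ⟨C, hC⟩ := hK.cpt.bddAbove_image hc
  exact ⟨C, fun x hx => hC (mem_image_of_mem _ hx)⟩

/-- numerator of the exponential average -/
noncomputable def nu {n : ℕ} (p : ℝ) (K : Set (Fin n → ℝ)) (y : Fin n → ℝ) : ℝ≥0∞ :=
  ∫⁻ x in K, ENNReal.ofReal (Real.exp (p * ∑ i, x i * y i))

noncomputable def av {n : ℕ} (p : ℝ) (K : Set (Fin n → ℝ)) (y : Fin n → ℝ) : ℝ≥0∞ :=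
  nu p K y / volume K

noncomputable def Ep {n : ℕ} (p : ℝ) (K : Set (Fin n → ℝ)) (y : Fin n → ℝ) : ℝ≥0∞ :=
  av p K y ^ (-(1 / p))

theorem av_le {n : ℕ} {p : ℝ} (hp : 0 < p) {K : Set (Fin n → ℝ)} (hK : Bd K) {y : Fin n → ℝ}
    {C : ℝ} (hC : ∀ x ∈ K, ∑ i, x i * y i ≤ C) : av p K y ≤ ENNReal.ofReal (Real.exp (p * C)) := by
  unfold av nu
  rw [ENNReal.div_le_iff hK.vol_ne_zero hK.vol_ne_top]
  rw [← setLIntegral_const]
  apply setLIntegral_mono' hK.cpt.measurableSet
  intro x hx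
  apply ENNReal.ofReal_le_ofReal
  apply Real.exp_le_exp.2
  exact mul_le_mul_of_nonneg_left (hC x hx) hp.le

theorem av_ne_top {n : ℕ} {p : ℝ} (hp : 0 < p) {K : Set (Fin n → ℝ)} (hK : Bd K)
    (y : Fin n → ℝ) : av p K y ≠ ⊤ := by
  obtain ⟨C, hC⟩ := hK.bound y
  exact ((av_le hp hK hC).trans_lt ENNReal.ofReal_lt_top).ne

theorem av_ne_zero {n : ℕ} {p : ℝ} {K : Set (Fin n → ℝ)} (hK : Bd K)
    (y : Fin n → ℝ) : av p K y ≠ 0 := by
  unfold av
  rw [Ne, ENNReal.div_eq_zero_iff, not_or]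
  refine ⟨?_, hK.vol_ne_top⟩
  unfold nu
  rw [lintegral_eq_zero_iff (by fun_prop)]
  intro h
  rw [Filter.EventuallyEq, ae_restrict_iff' hK.cpt.measurableSet] at h
  refine hK.vol_ne_zero (measure_mono_null ?_ h)
  intro x hx
  simp only [mem_compl_iff, mem_ofPred_eq, Classical.not_imp]
  exact ⟨hx, by simp [Real.exp_pos]⟩

theorem measurable_nu {n : ℕ} (p : ℝ) (K : Set (Fin n → ℝ)) : Measurable (nu p K) := by
  unfold nu
  have : Measurable fun q : (Fin n → ℝ) × (Fin n → ℝ) =>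
      ENNReal.ofReal (Real.exp (p * ∑ i, q.2 i * q.1 i)) := by fun_prop
  exact this.lintegral_prod_right'

theorem setLIntegral_aff {n : ℕ} {M : Matrix (Fin n) (Fin n) ℝ} (hM : M.det ≠ 0) (c : Fin n → ℝ)
    {K : Set (Fin n → ℝ)} (hK : Bd K) {g : (Fin n → ℝ) → ℝ≥0∞} (hg : Measurable g) :
    ∫⁻ x in (fun x => M *ᵥ x + c) '' K, g x =
      ENNReal.ofReal |M.det| * ∫⁻ x in K, g (M *ᵥ x + c) := by
  have mK := hK.cpt.measurableSet
  have mL := (hK.aff hM c).cpt.measurableSet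
  rw [← lintegral_indicator mL, ← lintegral_indicator mK]
  rw [← lintegral_add_right_eq_self _ c]
  have h1 : Measurable fun x => ((fun x => M *ᵥ x + c) '' K).indicator g (x + c) :=
    (hg.indicator mL).comp (measurable_add_const c)
  have h2 := lintegral_mat hM h1
  have h3 : ∀ x, ((fun x => M *ᵥ x + c) '' K).indicator g (M *ᵥ x + c) =
      K.indicator (fun x => g (M *ᵥ x + c)) x := by
    intro x
    by_cases hx : x ∈ K
    · rw [indicator_of_mem hx,
        indicator_of_mem (mem_image_of_mem (fun x => M *ᵥ x + c) hx)]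
    · rw [indicator_of_notMem hx, indicator_of_notMem]
      rintro ⟨y, hy, hxy⟩
      simp only [add_left_inj] at hxy
      have := congrArg (M⁻¹ *ᵥ ·) hxy
      simp only [(mat_inv hM _).1] at this
      exact hx (this ▸ hy)
  rw [← lintegral_congr h3, h2, ← mul_assoc, ← ENNReal.ofReal_mul (abs_nonneg _),
    mul_inv_cancel₀ (by simpa using hM), ENNReal.ofReal_one, one_mul]

theorem av_aff {n : ℕ} {p : ℝ} {K : Set (Fin n → ℝ)} (hK : Bd K)
    {M : Matrix (Fin n) (Fin n) ℝ} (c : Fin n → ℝ) (hM : M.det ≠ 0) (y : Fin n → ℝ) :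
    av p ((fun x => M *ᵥ x + c) '' K) y =
      av p K (Mᵀ *ᵥ y) * ENNReal.ofReal (Real.exp (p * ∑ i, c i * y i)) := by
  unfold av nu
  rw [setLIntegral_aff hM c hK (by fun_prop), volume_aff]
  have h0 : ENNReal.ofReal |M.det| ≠ 0 := by simpa using hM
  rw [ENNReal.mul_div_mul_left _ _ h0 ENNReal.ofReal_ne_top]
  have e : ∀ x : Fin n → ℝ, ENNReal.ofReal (Real.exp (p * ∑ i, (M *ᵥ x + c) i * y i)) =
      ENNReal.ofReal (Real.exp (p * ∑ i, x i * (Mᵀ *ᵥ y) i)) *
        ENNReal.ofReal (Real.exp (p * ∑ i, c i * y i)) := by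
    intro x
    rw [← ENNReal.ofReal_mul (Real.exp_pos _).le, ← Real.exp_add, ← mul_add]
    congr 3
    simp only [sum_dot]
    rw [add_dotProduct, Matrix.dotProduct_mulVec x Mᵀ y, Matrix.vecMul_transpose]
  simp only [e]
  rw [lintegral_mul_const _ (by fun_prop)]
  rw [ENNReal.mul_div_right_comm]

theorem nu_sh {m : ℕ} {p : ℝ} {α : (Fin (m + 1) → ℝ) → ℝ} (hα : Sp α) (t : ℝ)
    (K : Set (Fin (m + 1) → ℝ)) (y : Fin (m + 1) → ℝ) : nu p (sh α t '' K) y =
      ∫⁻ x in K, ENNReal.ofReal (Real.exp (p * (∑ i, x i * y i + t * α x * y 0))) := by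
  unfold nu
  rw [lintegral_sh hα]
  refine lintegral_congr fun x => ?_
  congr 3
  unfold sh
  simp [add_mul, Finset.sum_add_distrib, Pi.single_apply]

theorem good_Ep (m : ℕ) {p : ℝ} (hp : 0 < p) : Good m (1 / p) (Ep p) where
  q0 := by positivity
  meas K hK := ((measurable_nu p K).div_const _).pow_const _
  pos K hK y := by
    unfold Ep
    rw [ENNReal.rpow_neg]
    exact ENNReal.inv_ne_zero.2 (ENNReal.rpow_ne_top_of_nonneg (by positivity) (av_ne_top hp hK y))
  aff K hK M c hM y := by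
    unfold Ep
    rw [av_aff hK c hM, ENNReal.mul_rpow_of_ne_zero (av_ne_zero hK _) (by simp [Real.exp_pos]),
      ENNReal.ofReal_rpow_of_pos (Real.exp_pos _), ← Real.exp_mul]
    congr 3
    field_simp
  shear K hK α hα t0 t1 w0 w1 h0 h1 hw y0 y1 hy := by
    have hK0 := hK.sh hα t0
    have hK1 := hK.sh hα t1
    have key : av p K (w0 • y0 + w1 • y1) ≤ av p (sh α t0 '' K) y0 ^ w0 *
        av p (sh α t1 '' K) y1 ^ w1 := by
      unfold av
      rw [volume_sh hα, volume_sh hα, ENNReal.div_rpow_of_nonneg _ _ h0.le,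
        ENNReal.div_rpow_of_nonneg _ _ h1.le]
      have e : nu p (sh α t0 '' K) y0 ^ w0 / volume K ^ w0 *
          (nu p (sh α t1 '' K) y1 ^ w1 / volume K ^ w1) =
          (nu p (sh α t0 '' K) y0 ^ w0 * nu p (sh α t1 '' K) y1 ^ w1) / volume K := by
        rw [div_eq_mul_inv, div_eq_mul_inv, div_eq_mul_inv, mul_mul_mul_comm,
          ← ENNReal.inv_rpow, ← ENNReal.inv_rpow, ← ENNReal.rpow_add_of_nonneg _ _ h0.le h1.le,
          hw, ENNReal.rpow_one]
      rw [e]
      refine ENNReal.div_le_div_right ?_ _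
      rw [nu_sh hα, nu_sh hα]
      refine le_trans (le_of_eq ?_) (ENNReal.lintegral_mul_norm_pow_le
        (μ := volume.restrict K)
        (f := fun x => ENNReal.ofReal (Real.exp (p * (∑ i, x i * y0 i + t0 * α x * y0 0))))
        (g := fun x => ENNReal.ofReal (Real.exp (p * (∑ i, x i * y1 i + t1 * α x * y1 0))))
        ?_ ?_ h0.le h1.le hw)
      · unfold nu
        refine lintegral_congr fun x => ?_
        rw [ENNReal.ofReal_rpow_of_pos (Real.exp_pos _), ENNReal.ofReal_rpow_of_pos (Real.exp_pos _),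
          ← Real.exp_mul, ← Real.exp_mul, ← ENNReal.ofReal_mul (Real.exp_pos _).le, ← Real.exp_add]
        congr 2
        simp only [Pi.add_apply, Pi.smul_apply, smul_eq_mul, mul_add, Finset.sum_add_distrib]
        have e1 : ∑ i, x i * (w0 * y0 i) = (∑ i, x i * y0 i) * w0 := by
          rw [Finset.sum_mul]; exact Finset.sum_congr rfl fun i _ => by ring
        have e2 : ∑ i, x i * (w1 * y1 i) = (∑ i, x i * y1 i) * w1 := by
          rw [Finset.sum_mul]; exact Finset.sum_congr rfl fun i _ => by ring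
        rw [e1, e2]
        linear_combination (-(p * α x)) * hy
      · have := hα.cont.measurable
        exact Measurable.aemeasurable (by fun_prop)
      · have := hα.cont.measurable
        exact Measurable.aemeasurable (by fun_prop)
    unfold Ep
    have e : (av p (sh α t0 '' K) y0 ^ (-(1 / p))) ^ w0 * (av p (sh α t1 '' K) y1 ^ (-(1 / p))) ^ w1 =
        (av p (sh α t0 '' K) y0 ^ w0 * av p (sh α t1 '' K) y1 ^ w1) ^ (-(1 / p)) := by
      rw [ENNReal.mul_rpow_of_ne_zero, ← ENNReal.rpow_mul, ← ENNReal.rpow_mul, ← ENNReal.rpow_mul,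
        ← ENNReal.rpow_mul, mul_comm w0, mul_comm w1]
      · simp [ENNReal.rpow_eq_zero_iff, av_ne_zero hK0, av_ne_top hp hK0, h0.not_gt]
      · simp [ENNReal.rpow_eq_zero_iff, av_ne_zero hK1, av_ne_top hp hK1, h1.not_gt]
    rw [e, ENNReal.rpow_neg, ENNReal.rpow_neg]
    exact ENNReal.inv_le_inv.2 (ENNReal.rpow_le_rpow key (by positivity))
  mono K P hK hP hKP κ hκ hv y := by
    have h1 : av p K y ≤ ENNReal.ofReal κ * av p P y := by
      unfold av
      rw [ENNReal.div_le_iff hK.vol_ne_zero hK.vol_ne_top]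
      calc nu p K y ≤ nu p P y := lintegral_mono_set hKP
        _ = nu p P y / volume P * volume P := by
          rw [ENNReal.div_mul_cancel hP.vol_ne_zero hP.vol_ne_top]
        _ ≤ nu p P y / volume P * (ENNReal.ofReal κ * volume K) := mul_le_mul_right hv _
        _ = _ := by ring
    have k0 : 0 < κ := by linarith
    have h2 : av p K y ^ (1 / p) ≤ ENNReal.ofReal (κ ^ (1 / p)) * av p P y ^ (1 / p) := by
      rw [← ENNReal.ofReal_rpow_of_pos k0, ← ENNReal.mul_rpow_of_nonneg _ _ (by positivity)]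
      exact ENNReal.rpow_le_rpow h1 (by positivity)
    unfold Ep
    rw [ENNReal.rpow_neg, ENNReal.rpow_neg]
    have h3 : ENNReal.ofReal (κ ^ (1 / p)) ≠ 0 := by
      simpa using Real.rpow_pos_of_pos k0 _
    have h4 := ENNReal.inv_le_inv.2 h2
    rw [ENNReal.mul_inv (Or.inl h3) (Or.inl ENNReal.ofReal_ne_top)] at h4
    calc (av p P y ^ (1 / p))⁻¹ = ENNReal.ofReal (κ ^ (1 / p)) *
        ((ENNReal.ofReal (κ ^ (1 / p)))⁻¹ * (av p P y ^ (1 / p))⁻¹) := by
          rw [← mul_assoc, ENNReal.mul_inv_cancel h3 ENNReal.ofReal_ne_top, one_mul]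
      _ ≤ _ := mul_le_mul_right h4 _
  low K hK y C hC := by
    have h1 := ENNReal.rpow_le_rpow (av_le hp hK hC) (show 0 ≤ 1 / p by positivity)
    rw [ENNReal.ofReal_rpow_of_pos (Real.exp_pos _), ← Real.exp_mul] at h1
    unfold Ep
    rw [ENNReal.rpow_neg]
    have h2 := ENNReal.inv_le_inv.2 h1
    refine le_trans (le_of_eq ?_) h2
    rw [← ENNReal.ofReal_inv_of_pos (Real.exp_pos _), ← Real.exp_neg]
    congr 3
    field_simp

end Pool.Agent.Helper72.LM
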