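import Pool.Agent.Helper72.LM.Approx

set_option autoImplicit false
open MeasureTheory Set
open scoped ENNReal Matrix

namespace Pool.Agent.Helper72.LM

theorem bd_Dl (n : ℕ) : Bd (Dl n) := by
  constructor
  · refine Metric.isCompact_of_isClosed_isBounded ?_ ?_
    · have : Dl n = (⋂ i, {z : Fin n → ℝ | 0 ≤ z i}) ∩ {z : Fin n → ℝ | ∑ i, z i ≤ 1} := by
        ext z; simp [Dl]
      rw [this]
      refine IsClosed.inter (isClosed_iInter fun i => isClosed_le continuous_const (by fun_prop))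
        (isClosed_le (by fun_prop) continuous_const)
    · refine (Metric.isBounded_Icc (0 : Fin n → ℝ) 1).subset ?_
      intro z hz
      refine ⟨fun i => hz.1 i, fun i => ?_⟩
      refine le_trans ?_ hz.2
      exact Finset.single_le_sum (f := z) (fun j _ => hz.1 j) (Finset.mem_univ i)
  · have hsub : {z : Fin n → ℝ | (∀ i, 0 < z i) ∧ ∑ i, z i < 1} ⊆ interior (Dl n) := by
      refine interior_maximal ?_ ?_
      · intro z hz
        exact ⟨fun i => (hz.1 i).le, hz.2.le⟩
      · have : {z : Fin n → ℝ | (∀ i, 0 < z i) ∧ ∑ i, z i < 1} =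
            (⋂ i, {z : Fin n → ℝ | 0 < z i}) ∩ {z : Fin n → ℝ | ∑ i, z i < 1} := by
          ext z; simp
        rw [this]
        refine IsOpen.inter (isOpen_iInter_of_finite fun i => isOpen_lt continuous_const (by fun_prop))
          (isOpen_lt (by fun_prop) continuous_const)
    refine Nonempty.mono hsub ⟨fun _ => 1 / ((n : ℝ) + 1), fun i => by positivity, ?_⟩
    rw [Finset.sum_const, Finset.card_univ, Fintype.card_fin, nsmul_eq_mul]
    have : (0 : ℝ) < (n : ℝ) + 1 := by positivity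
    rw [mul_one_div, div_lt_one this]
    linarith

/-- a lower bound forcing divergence -/
theorem Iz_top {m : ℕ} {q : ℝ} {E : Set (Fin (m + 1) → ℝ) → (Fin (m + 1) → ℝ) → ℝ≥0∞}
    (hE : Good m q E) {K : Set (Fin (m + 1) → ℝ)} (hK : Bd K) {x : Fin (m + 1) → ℝ}
    {U : Set (Fin (m + 1) → ℝ)} (mU : MeasurableSet U) (hU : volume U = ⊤) {C : ℝ}
    (h : ∀ y ∈ U, ∀ z ∈ K, ∑ i, z i * y i - ∑ i, x i * y i ≤ C) : Iz E K x = ⊤ := by
  have h1 : ENNReal.ofReal (Real.exp (-C)) * volume U ≤ Iz E K x := by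
    unfold Iz
    rw [← setLIntegral_const]
    refine le_trans ?_ (setLIntegral_le_lintegral U _)
    apply setLIntegral_mono' mU
    intro y hy
    have h2 := hE.low K hK y (C + ∑ i, x i * y i) (fun z hz => by linarith [h y hy z hz])
    calc ENNReal.ofReal (Real.exp (-C)) =
        ENNReal.ofReal (Real.exp (-(C + ∑ i, x i * y i))) *
          ENNReal.ofReal (Real.exp (∑ i, x i * y i)) := by
          rw [← ENNReal.ofReal_mul (Real.exp_pos _).le, ← Real.exp_add]
          congr 2; ring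
      _ ≤ _ := mul_le_mul_left h2 _
  rw [hU, ENNReal.mul_top (by simp [Real.exp_pos])] at h1
  exact top_le_iff.1 h1

theorem tube1 (m : ℕ) (i : Fin (m + 1)) :
    volume (univ.pi fun j : Fin (m + 1) => if j = i then Iic (0 : ℝ) else Icc (-1) 1) = ⊤ := by
  rw [volume_pi_pi, ← Finset.mul_prod_erase _ _ (Finset.mem_univ i)]
  simp only [if_true, Real.volume_Iic]
  apply ENNReal.top_mul
  rw [Finset.prod_ne_zero_iff]
  intro j hj
  rw [if_neg (Finset.ne_of_mem_erase hj), Real.volume_Icc]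
  norm_num

theorem tube2 (m : ℕ) :
    volume {y : Fin (m + 1) → ℝ | 0 ≤ y 0 ∧ ∀ j : Fin m, |y j.succ - y 0| ≤ 1} = ⊤ := by
  have mS : MeasurableSet {y : Fin (m + 1) → ℝ | 0 ≤ y 0 ∧ ∀ j : Fin m, |y j.succ - y 0| ≤ 1} := by
    have : {y : Fin (m + 1) → ℝ | 0 ≤ y 0 ∧ ∀ j : Fin m, |y j.succ - y 0| ≤ 1} =
        {y : Fin (m + 1) → ℝ | 0 ≤ y 0} ∩ ⋂ j : Fin m, {y : Fin (m + 1) → ℝ | |y j.succ - y 0| ≤ 1} := by
      ext y; simp
    rw [this]
    refine (measurableSet_le measurable_const (by fun_prop)).inter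
      (MeasurableSet.iInter fun j => measurableSet_le ?_ measurable_const)
    exact Continuous.measurable (by fun_prop)
  rw [← lintegral_indicator_one mS, lintegral_slice (measurable_one.indicator mS)]
  have h1 : ∀ u : ℝ, 0 ≤ u → slice ({y : Fin (m + 1) → ℝ | 0 ≤ y 0 ∧ ∀ j : Fin m,
      |y j.succ - y 0| ≤ 1}.indicator 1) u = ENNReal.ofReal 2 ^ m := by
    intro u hu
    unfold slice
    have e : ∀ y' : Fin m → ℝ, ({y : Fin (m + 1) → ℝ | 0 ≤ y 0 ∧ ∀ j : Fin m,
        |y j.succ - y 0| ≤ 1}.indicator (1 : (Fin (m + 1) → ℝ) → ℝ≥0∞)) (Fin.cons u y') =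
        (Icc (fun _ : Fin m => u - 1) (fun _ => u + 1)).indicator 1 y' := by
      intro y'
      simp only [indicator_apply]
      congr 1
      simp only [mem_ofPred_eq, Fin.cons_zero, Fin.cons_succ, hu, true_and, mem_Icc, eq_iff_iff,
        abs_le, Pi.le_def]
      constructor
      · intro h
        exact ⟨fun j => by linarith [(h j).1], fun j => by linarith [(h j).2]⟩
      · rintro ⟨h1, h2⟩ j
        exact ⟨by linarith [h1 j], by linarith [h2 j]⟩
    rw [lintegral_congr e, lintegral_indicator_one measurableSet_Icc, Real.volume_Icc_pi]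
    simp only [Finset.prod_const, Finset.card_univ, Fintype.card_fin]
    congr 2
    ring
  have h2 : ∫⁻ u in Ici (0 : ℝ), slice ({y : Fin (m + 1) → ℝ | 0 ≤ y 0 ∧ ∀ j : Fin m,
      |y j.succ - y 0| ≤ 1}.indicator 1) u = ⊤ := by
    rw [setLIntegral_congr_fun measurableSet_Ici (g := fun _ => ENNReal.ofReal 2 ^ m)
      (fun u hu => h1 u hu)]
    rw [setLIntegral_const, Real.volume_Ici]
    apply ENNReal.mul_top
    simp
  exact top_le_iff.1 (h2 ▸ setLIntegral_le_lintegral _ _)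

theorem Iz_Dl_top {m : ℕ} {q : ℝ} {E : Set (Fin (m + 1) → ℝ) → (Fin (m + 1) → ℝ) → ℝ≥0∞}
    (hE : Good m q E) {x : Fin (m + 1) → ℝ} (hx : x ∉ Dl (m + 1)) : Iz E (Dl (m + 1)) x = ⊤ := by
  have hx' : (∃ i, x i < 0) ∨ 1 < ∑ i, x i := by
    by_contra h
    push Not at h
    exact hx ⟨h.1, h.2⟩
  rcases hx' with ⟨i, hi⟩ | hs
  · refine Iz_top hE (bd_Dl _) (U := univ.pi fun j : Fin (m + 1) =>
      if j = i then Iic (0 : ℝ) else Icc (-1) 1) ?_ (tube1 m i) (C := 1 + ∑ j, |x j|) ?_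
    · refine MeasurableSet.univ_pi fun j => ?_
      split_ifs
      · exact measurableSet_Iic
      · exact measurableSet_Icc
    · intro y hy z hz
      have hyi : y i ≤ 0 := by simpa using hy i (mem_univ i)
      have hyj : ∀ j, j ≠ i → |y j| ≤ 1 := by
        intro j hj
        have := hy j (mem_univ j)
        simp only [if_neg hj] at this
        exact abs_le.2 this
      have e1 : ∑ j, z j * y j ≤ ∑ j, z j := by
        apply Finset.sum_le_sum
        intro j _
        have zj := hz.1 j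
        by_cases hj : j = i
        · subst hj
          nlinarith
        · have := (abs_le.1 (hyj j hj)).2
          nlinarith
      have e2 : -∑ j, |x j| ≤ ∑ j, x j * y j := by
        rw [← Finset.sum_neg_distrib]
        apply Finset.sum_le_sum
        intro j _
        by_cases hj : j = i
        · subst hj
          have : 0 ≤ x j * y j := mul_nonneg_of_nonpos_of_nonpos hi.le hyi
          linarith [abs_nonneg (x j)]
        · have h1 : |x j * y j| ≤ |x j| := by
            rw [abs_mul]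
            exact mul_le_of_le_one_right (abs_nonneg _) (hyj j hj)
          linarith [neg_abs_le (x j * y j)]
      linarith [hz.2]
  · refine Iz_top hE (bd_Dl _) (U := {y : Fin (m + 1) → ℝ | 0 ≤ y 0 ∧ ∀ j : Fin m,
      |y j.succ - y 0| ≤ 1}) ?_ (tube2 m) (C := 1 + ∑ j, |x j|) ?_
    · have : {y : Fin (m + 1) → ℝ | 0 ≤ y 0 ∧ ∀ j : Fin m, |y j.succ - y 0| ≤ 1} =
          {y : Fin (m + 1) → ℝ | 0 ≤ y 0} ∩
            ⋂ j : Fin m, {y : Fin (m + 1) → ℝ | |y j.succ - y 0| ≤ 1} := by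
        ext y; simp
      rw [this]
      refine (measurableSet_le measurable_const (by fun_prop)).inter
        (MeasurableSet.iInter fun j => measurableSet_le ?_ measurable_const)
      exact Continuous.measurable (by fun_prop)
    · rintro y ⟨hy0, hyj⟩ z hz
      have hw : ∀ j, |y j - y 0| ≤ 1 := by
        intro j
        refine Fin.cases ?_ (fun k => hyj k) j
        simp
      have e1 : ∑ j, z j * y j ≤ ∑ j, (z j + z j * y 0) := by
        apply Finset.sum_le_sum
        intro j _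
        have zj := hz.1 j
        have := (abs_le.1 (hw j)).2
        nlinarith
      have e2 : ∑ j, (-|x j| + x j * y 0) ≤ ∑ j, x j * y j := by
        apply Finset.sum_le_sum
        intro j _
        have h1 : |x j * (y j - y 0)| ≤ |x j| := by
          rw [abs_mul]
          exact mul_le_of_le_one_right (abs_nonneg _) (hw j)
        have := neg_abs_le (x j * (y j - y 0))
        nlinarith
      rw [Finset.sum_add_distrib, ← Finset.sum_mul] at e1
      rw [Finset.sum_add_distrib, ← Finset.sum_mul, Finset.sum_neg_distrib] at e2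
      have e3 : (∑ j, z j) * y 0 ≤ (∑ j, x j) * y 0 :=
        mul_le_mul_of_nonneg_right (hz.2.trans hs.le) hy0
      linarith [hz.2]

theorem Iz_translate {m : ℕ} {q : ℝ} {E : Set (Fin (m + 1) → ℝ) → (Fin (m + 1) → ℝ) → ℝ≥0∞}
    (hE : Good m q E) {K : Set (Fin (m + 1) → ℝ)} (hK : Bd K) (x : Fin (m + 1) → ℝ) :
    volume ((fun z => z - x) '' K) * ∫⁻ y, E ((fun z => z - x) '' K) y = volume K * Iz E K x := by
  have e : (fun z : Fin (m + 1) → ℝ => z - x) =
      fun z => (1 : Matrix (Fin (m + 1)) (Fin (m + 1)) ℝ) *ᵥ z + (-x) := by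
    funext z; rw [Matrix.one_mulVec, sub_eq_add_neg]
  rw [e, volume_aff, Matrix.det_one, abs_one, ENNReal.ofReal_one, one_mul]
  congr 1
  unfold Iz
  refine lintegral_congr fun y => ?_
  rw [hE.aff K hK 1 (-x) (by simp) y, Matrix.transpose_one, Matrix.one_mulVec]
  congr 3
  simp [Finset.sum_neg_distrib]

theorem finish {m : ℕ} {q : ℝ} {E : Set (Fin (m + 1) → ℝ) → (Fin (m + 1) → ℝ) → ℝ≥0∞}
    (hE : Good m q E) {K : Set (Fin (m + 1) → ℝ)}
    (h : Vp E (Dl (m + 1)) ≤ Vp E K) :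
    (⨅ x ∈ Dl (m + 1), volume ((fun z => z - x) '' Dl (m + 1)) *
      ∫⁻ y, E ((fun z => z - x) '' Dl (m + 1)) y) ≤ volume K * ∫⁻ y, E K y := by
  have hD := bd_Dl (m + 1)
  have h1 : Vp E K ≤ volume K * ∫⁻ y, E K y := by
    unfold Vp
    refine mul_le_mul_right ((iInf_le _ 0).trans (le_of_eq ?_)) _
    unfold Iz
    simp
  refine le_trans ?_ (h.trans h1)
  unfold Vp
  rw [ENNReal.mul_iInf_of_ne hD.vol_ne_zero hD.vol_ne_top]
  refine le_iInf fun z => ?_
  by_cases hz : z ∈ Dl (m + 1)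
  · refine (iInf₂_le z hz).trans (le_of_eq ?_)
    exact Iz_translate hE hD z
  · rw [Iz_Dl_top hE hz, ENNReal.mul_top hD.vol_ne_zero]
    exact le_top

theorem Bd.translate {n : ℕ} {K : Set (Fin n → ℝ)} (hK : Bd K) (x : Fin n → ℝ) :
    Bd ((fun z => z - x) '' K) := by
  have e : (fun z : Fin n → ℝ => z - x) =
      fun z => (1 : Matrix (Fin n) (Fin n) ℝ) *ᵥ z + (-x) := by
    funext z; rw [Matrix.one_mulVec, sub_eq_add_neg]
  rw [e]
  exact hK.aff (by simp) _

theorem Ep_eq {n : ℕ} {p : ℝ} (hp : 0 < p) {L : Set (Fin n → ℝ)} (hL : Bd L) (y : Fin n → ℝ) :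
    ENNReal.ofReal (((∫ x in L, Real.exp (p * ∑ i, x i * y i)) / (volume L).toReal) ^
      (-(1 / p))) = Ep p L y := by
  have hint : IntegrableOn (fun x : Fin n → ℝ => Real.exp (p * ∑ i, x i * y i)) L volume := by
    apply ContinuousOn.integrableOn_compact hL.cpt
    fun_prop
  have h1 := ofReal_integral_eq_lintegral_ofReal hint
    (Filter.Eventually.of_forall fun x => (Real.exp_pos _).le)
  have hv : 0 < (volume L).toReal := ENNReal.toReal_pos hL.vol_ne_zero hL.vol_ne_top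
  have h2 : ENNReal.ofReal ((∫ x in L, Real.exp (p * ∑ i, x i * y i)) / (volume L).toReal) =
      av p L y := by
    rw [ENNReal.ofReal_div_of_pos hv, ENNReal.ofReal_toReal hL.vol_ne_top, h1]
    rfl
  have h3 : 0 < (∫ x in L, Real.exp (p * ∑ i, x i * y i)) / (volume L).toReal := by
    have := av_ne_zero (p := p) hL y
    rw [← h2] at this
    simpa using this
  rw [← ENNReal.ofReal_rpow_of_pos h3, h2]
  rfl

/-- assembly of both families of functionals -/
theorem assemble {m : ℕ} {K : Set (Fin (m + 1) → ℝ)} (hK : Bd K)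
    (hp : ∀ p : ℝ, 0 < p → Vp (m := m) (Ep p) (Dl (m + 1)) ≤ Vp (Ep p) K)
    (hi : Vp (m := m) Ei (Dl (m + 1)) ≤ Vp Ei K)
    (Mfin : ℝ → Set (Fin (m + 1) → ℝ) → ℝ≥0∞) (Minf : Set (Fin (m + 1) → ℝ) → ℝ≥0∞)
    (h1 : ∀ (p : ℝ) (L : Set (Fin (m + 1) → ℝ)), Mfin p L = volume L *
        ∫⁻ y : Fin (m + 1) → ℝ, ENNReal.ofReal
          (((∫ x in L, Real.exp (p * ∑ i, x i * y i)) / (volume L).toReal) ^ (-(1 / p))))
    (h2 : ∀ L : Set (Fin (m + 1) → ℝ), Minf L = volume L *
        ∫⁻ y : Fin (m + 1) → ℝ, ENNReal.ofReal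
          (Real.exp (-(sSup ((fun x : Fin (m + 1) → ℝ => ∑ i, x i * y i) '' L))))) :
    (∀ p : ℝ, 0 < p →
      (⨅ x ∈ {z : Fin (m + 1) → ℝ | (∀ i, 0 ≤ z i) ∧ ∑ i, z i ≤ 1},
        Mfin p ((fun z : Fin (m + 1) → ℝ => z - x) ''
          {z : Fin (m + 1) → ℝ | (∀ i, 0 ≤ z i) ∧ ∑ i, z i ≤ 1})) ≤ Mfin p K) ∧
    ((⨅ x ∈ {z : Fin (m + 1) → ℝ | (∀ i, 0 ≤ z i) ∧ ∑ i, z i ≤ 1},
        Minf ((fun z : Fin (m + 1) → ℝ => z - x) ''
          {z : Fin (m + 1) → ℝ | (∀ i, 0 ≤ z i) ∧ ∑ i, z i ≤ 1})) ≤ Minf K) := by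
  have hD := bd_Dl (m + 1)
  constructor
  · intro p hp0
    have e : ∀ L : Set (Fin (m + 1) → ℝ), Bd L → Mfin p L = volume L * ∫⁻ y, Ep p L y := by
      intro L hL
      rw [h1]
      congr 1
      exact lintegral_congr fun y => Ep_eq hp0 hL y
    rw [e K hK]
    refine le_trans (le_of_eq ?_) (finish (good_Ep m hp0) (hp p hp0))
    refine iInf_congr fun x => iInf_congr fun hx => ?_
    exact e _ (hD.translate x)
  · have e : ∀ L : Set (Fin (m + 1) → ℝ), Minf L = volume L * ∫⁻ y, Ei L y := by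
      intro L
      rw [h2]
      rfl
    rw [e K]
    refine le_trans (le_of_eq ?_) (finish (good_Ei m) hi)
    refine iInf_congr fun x => iInf_congr fun hx => ?_
    exact e _

end Pool.Agent.Helper72.LM
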