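import Pool.Agent.Helper72.LM.Shear

set_option autoImplicit false
open MeasureTheory Set
open scoped ENNReal Matrix

namespace Pool.Agent.Helper72.LM

variable {m : ℕ}

/-- the properties of the kernels used in the argument -/
structure Good (m : ℕ) (q : ℝ) (E : Set (Fin (m + 1) → ℝ) → (Fin (m + 1) → ℝ) → ℝ≥0∞) : Prop where
  q0 : 0 ≤ q
  meas : ∀ K, Bd K → Measurable (E K)
  pos : ∀ K, Bd K → ∀ y, E K y ≠ 0
  aff : ∀ K, Bd K → ∀ (M : Matrix (Fin (m + 1)) (Fin (m + 1)) ℝ) (c : Fin (m + 1) → ℝ),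
    M.det ≠ 0 → ∀ y, E ((fun x => M *ᵥ x + c) '' K) y =
      E K (Mᵀ *ᵥ y) * ENNReal.ofReal (Real.exp (-∑ i, c i * y i))
  shear : ∀ K, Bd K → ∀ α, Sp α → ∀ t0 t1 w0 w1 : ℝ, 0 < w0 → 0 < w1 → w0 + w1 = 1 →
    ∀ y0 y1 : Fin (m + 1) → ℝ, w0 * t0 * y0 0 + w1 * t1 * y1 0 = 0 →
    E (sh α t0 '' K) y0 ^ w0 * E (sh α t1 '' K) y1 ^ w1 ≤ E K (w0 • y0 + w1 • y1)
  mono : ∀ K P, Bd K → Bd P → K ⊆ P → ∀ κ : ℝ, 1 ≤ κ → volume P ≤ ENNReal.ofReal κ * volume K →
    ∀ y, E P y ≤ ENNReal.ofReal (κ ^ q) * E K y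
  low : ∀ K, Bd K → ∀ y (C : ℝ), (∀ x ∈ K, ∑ i, x i * y i ≤ C) →
    ENNReal.ofReal (Real.exp (-C)) ≤ E K y

/-- the integral with centre `z` -/
noncomputable def Iz (E : Set (Fin (m + 1) → ℝ) → (Fin (m + 1) → ℝ) → ℝ≥0∞)
    (K : Set (Fin (m + 1) → ℝ)) (z : Fin (m + 1) → ℝ) : ℝ≥0∞ :=
  ∫⁻ y, E K y * ENNReal.ofReal (Real.exp (∑ i, z i * y i))

/-- the translation invariant volume product -/
noncomputable def Vp (E : Set (Fin (m + 1) → ℝ) → (Fin (m + 1) → ℝ) → ℝ≥0∞)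
    (K : Set (Fin (m + 1) → ℝ)) : ℝ≥0∞ := volume K * ⨅ z, Iz E K z

theorem Iz_eq_tw (E : Set (Fin (m + 1) → ℝ) → (Fin (m + 1) → ℝ) → ℝ≥0∞)
    (K : Set (Fin (m + 1) → ℝ)) (z : Fin (m + 1) → ℝ) : Iz E K z = ∫⁻ y, tw (E K) z 0 y := by
  unfold Iz tw; simp

theorem Good.rel {q : ℝ} {E : Set (Fin (m + 1) → ℝ) → (Fin (m + 1) → ℝ) → ℝ≥0∞}
    (hE : Good m q E) {K : Set (Fin (m + 1) → ℝ)} (hK : Bd K) {α : (Fin (m + 1) → ℝ) → ℝ}
    (hα : Sp α) {a b t0 t1 : ℝ} (ha : 0 < a) (hb : 0 < b) (h : a * t0 + b * t1 = 0) :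
    Rel a b (E K) (E (sh α t0 '' K)) (E (sh α t1 '' K)) := by
  intro σ x y hσ hx hy y0 y1 h0 h1
  have v0 : 0 < a * x + b * y := by positivity
  have w0 : 0 < a * x / (a * x + b * y) := by positivity
  have w1 : 0 < b * y / (a * x + b * y) := by positivity
  have ww : a * x / (a * x + b * y) + b * y / (a * x + b * y) = 1 := by
    rw [← add_div]; exact div_self v0.ne'
  refine hE.shear K hK α hα t0 t1 _ _ w0 w1 ww y0 y1 ?_
  rw [h0, h1]
  have : a * x / (a * x + b * y) * t0 * (σ * x⁻¹) + b * y / (a * x + b * y) * t1 * (σ * y⁻¹) =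
    (a * t0 + b * t1) * σ / (a * x + b * y) := by field_simp
  rw [this, h]; simp

theorem Vp_shear {q : ℝ} {E : Set (Fin (m + 1) → ℝ) → (Fin (m + 1) → ℝ) → ℝ≥0∞}
    (hE : Good m q E) {K : Set (Fin (m + 1) → ℝ)} (hK : Bd K) {α : (Fin (m + 1) → ℝ) → ℝ}
    (hα : Sp α) {t0 t1 : ℝ} (h0 : t0 < 0) (h1 : 0 < t1) :
    min (Vp E (sh α t0 '' K)) (Vp E (sh α t1 '' K)) ≤ Vp E K := by
  have d0 : 0 < t1 - t0 := by linarith
  have ha : 0 < t1 / (t1 - t0) := by positivity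
  have hb : 0 < -t0 / (t1 - t0) := div_pos (by linarith) d0
  have hab : t1 / (t1 - t0) + -t0 / (t1 - t0) = 1 := by
    rw [← add_div]; rw [div_eq_one_iff_eq d0.ne']; ring
  have hz : t1 / (t1 - t0) * t0 + -t0 / (t1 - t0) * t1 = 0 := by field_simp; ring
  unfold Vp
  rw [volume_sh hα, volume_sh hα]
  set c := min (⨅ z, Iz E (sh α t0 '' K) z) (⨅ z, Iz E (sh α t1 '' K) z) with hc
  have key : c ≤ ⨅ z, Iz E K z := by
    refine le_iInf fun z => ?_
    rw [Iz_eq_tw]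
    refine balance ha hb hab (hE.meas _ hK) (hE.meas _ (hK.sh hα t0)) (hE.meas _ (hK.sh hα t1))
      (hE.pos _ (hK.sh hα t0)) (hE.rel hK hα ha hb hz) (fun z => ?_) (fun z => ?_) z
    · rw [← Iz_eq_tw]; exact (min_le_left _ _).trans (iInf_le _ z)
    · rw [← Iz_eq_tw]; exact (min_le_right _ _).trans (iInf_le _ z)
  refine le_trans ?_ (mul_le_mul_right key _)
  rcases le_total (⨅ z, Iz E (sh α t0 '' K) z) (⨅ z, Iz E (sh α t1 '' K) z) with h | h
  · rw [hc, min_eq_left h]; exact min_le_left _ _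
  · rw [hc, min_eq_right h]; exact min_le_right _ _

theorem lintegral_mat {n : ℕ} {M : Matrix (Fin n) (Fin n) ℝ} (hM : M.det ≠ 0)
    {f : (Fin n → ℝ) → ℝ≥0∞} (hf : Measurable f) :
    ∫⁻ x, f (M *ᵥ x) = ENNReal.ofReal |M.det|⁻¹ * ∫⁻ x, f x := by
  have h := Real.map_matrix_volume_pi_eq_smul_volume_pi hM
  have e : ∫⁻ x, f x ∂(Measure.map (Matrix.toLin' M) volume) = ∫⁻ x, f (M *ᵥ x) := by
    rw [lintegral_map hf]
    · simp
    · exact (LinearMap.continuous_on_pi _).measurable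
  rw [← e, h, lintegral_smul_measure, abs_inv]
  rfl

theorem volume_aff {n : ℕ} {M : Matrix (Fin n) (Fin n) ℝ} (c : Fin n → ℝ)
    (K : Set (Fin n → ℝ)) :
    volume ((fun x => M *ᵥ x + c) '' K) = ENNReal.ofReal |M.det| * volume K := by
  have : (fun x => M *ᵥ x + c) '' K = (fun x => x + c) '' (Matrix.toLin' M '' K) := by
    rw [image_image]; simp
  rw [this, image_add_right, measure_preimage_add_right, Measure.addHaar_image_linearMap,
    LinearMap.det_toLin']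

theorem mat_inv {n : ℕ} {M : Matrix (Fin n) (Fin n) ℝ} (hM : M.det ≠ 0) (x : Fin n → ℝ) :
    M⁻¹ *ᵥ (M *ᵥ x) = x ∧ M *ᵥ (M⁻¹ *ᵥ x) = x := by
  have hu : IsUnit M.det := isUnit_iff_ne_zero.2 hM
  constructor
  · rw [Matrix.mulVec_mulVec, Matrix.nonsing_inv_mul _ hu, Matrix.one_mulVec]
  · rw [Matrix.mulVec_mulVec, Matrix.mul_nonsing_inv _ hu, Matrix.one_mulVec]

theorem Bd.aff {n : ℕ} {K : Set (Fin n → ℝ)} (hK : Bd K) {M : Matrix (Fin n) (Fin n) ℝ}
    (hM : M.det ≠ 0) (c : Fin n → ℝ) : Bd ((fun x => M *ᵥ x + c) '' K) := by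
  have hc : ∀ (M : Matrix (Fin n) (Fin n) ℝ) (c : Fin n → ℝ),
    Continuous fun x : Fin n → ℝ => M *ᵥ x + c := by
    intro M c
    exact (Continuous.matrix_mulVec continuous_const continuous_id).add continuous_const
  refine ⟨hK.cpt.image (hc M c), ?_⟩
  have h1 : IsOpen ((fun x => M *ᵥ x + c) '' interior K) := by
    have : (fun x => M *ᵥ x + c) '' interior K = (fun x => M⁻¹ *ᵥ (x - c)) ⁻¹' interior K := by
      ext x
      constructor
      · rintro ⟨y, hy, rfl⟩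
        simp only [mem_preimage, add_sub_cancel_right]
        rw [(mat_inv hM y).1]; exact hy
      · intro h
        exact ⟨_, h, by simp only [(mat_inv hM (x - c)).2, sub_add_cancel]⟩
    rw [this]
    exact isOpen_interior.preimage
      (Continuous.matrix_mulVec continuous_const (continuous_id.sub continuous_const))
  have h2 : (fun x => M *ᵥ x + c) '' interior K ⊆ interior ((fun x => M *ᵥ x + c) '' K) :=
    interior_maximal (image_mono interior_subset) h1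
  exact (hK.int.image _).mono h2

theorem sum_dot {n : ℕ} (x y : Fin n → ℝ) : ∑ i, x i * y i = x ⬝ᵥ y := rfl

theorem Vp_aff {q : ℝ} {E : Set (Fin (m + 1) → ℝ) → (Fin (m + 1) → ℝ) → ℝ≥0∞}
    (hE : Good m q E) {K : Set (Fin (m + 1) → ℝ)} (hK : Bd K)
    {M : Matrix (Fin (m + 1)) (Fin (m + 1)) ℝ} (hM : M.det ≠ 0) (c : Fin (m + 1) → ℝ) :
    Vp E ((fun x => M *ᵥ x + c) '' K) = Vp E K := by
  have hMt : Mᵀ.det ≠ 0 := by rwa [Matrix.det_transpose]
  have key : ∀ z, Iz E ((fun x => M *ᵥ x + c) '' K) (M *ᵥ z + c) =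
      ENNReal.ofReal |M.det|⁻¹ * Iz E K z := by
    intro z
    have hf : Measurable fun y => E K y * ENNReal.ofReal (Real.exp (∑ i, z i * y i)) := by
      apply (hE.meas K hK).mul
      fun_prop
    have e := lintegral_mat hMt hf
    rw [Matrix.det_transpose] at e
    unfold Iz
    rw [← e]
    refine lintegral_congr fun y => ?_
    rw [hE.aff K hK M c hM y, mul_assoc, ← ENNReal.ofReal_mul (Real.exp_pos _).le, ← Real.exp_add]
    congr 3
    simp only [sum_dot]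
    rw [add_dotProduct, Matrix.dotProduct_mulVec z Mᵀ y, Matrix.vecMul_transpose]
    ring
  have h2 : (⨅ z, Iz E ((fun x => M *ᵥ x + c) '' K) z) =
      ENNReal.ofReal |M.det|⁻¹ * ⨅ z, Iz E K z := by
    rw [ENNReal.mul_iInf_of_ne (by simpa using hM) ENNReal.ofReal_ne_top]
    have hs : Function.Surjective fun z : Fin (m + 1) → ℝ => M *ᵥ z + c := fun z =>
      ⟨M⁻¹ *ᵥ (z - c), by simp only [(mat_inv hM (z - c)).2, sub_add_cancel]⟩
    rw [← hs.iInf_comp]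
    exact iInf_congr key
  unfold Vp
  rw [h2, volume_aff, mul_comm (ENNReal.ofReal |M.det|), mul_assoc, ← mul_assoc (ENNReal.ofReal _),
    ← ENNReal.ofReal_mul (abs_nonneg _), mul_inv_cancel₀ (by simpa using hM), ENNReal.ofReal_one,
    one_mul]

end Pool.Agent.Helper72.LM
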