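import Pool.Agent.Helper72.LM.Ball2

set_option autoImplicit false
open MeasureTheory Set
open scoped ENNReal

namespace Pool.Agent.Helper72.LM
open Pool.Agent.H26.PL

variable {m : ℕ}

/-- the basic relation between three densities -/
def Rel (a b : ℝ) (G G0 G1 : (Fin (m + 1) → ℝ) → ℝ≥0∞) : Prop :=
  ∀ (σ x y : ℝ), (σ = 1 ∨ σ = -1) → 0 < x → 0 < y → ∀ y0 y1 : Fin (m + 1) → ℝ,
    y0 0 = σ * x⁻¹ → y1 0 = σ * y⁻¹ →
    G0 y0 ^ (a * x / (a * x + b * y)) * G1 y1 ^ (b * y / (a * x + b * y)) ≤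
      G ((a * x / (a * x + b * y)) • y0 + (b * y / (a * x + b * y)) • y1)

noncomputable def slice (G : (Fin (m + 1) → ℝ) → ℝ≥0∞) (u : ℝ) : ℝ≥0∞ :=
  ∫⁻ y' : Fin m → ℝ, G (Fin.cons u y')

theorem cons_eq (u : ℝ) (y : Fin m → ℝ) :
    (MeasurableEquiv.piFinSuccAbove (fun _ : Fin (m + 1) => ℝ) 0).symm (u, y) = Fin.cons u y := by
  simp [MeasurableEquiv.piFinSuccAbove_symm_apply, Fin.insertNthEquiv]

theorem measurable_cons_comp {G : (Fin (m + 1) → ℝ) → ℝ≥0∞} (hG : Measurable G) :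
    Measurable fun q : ℝ × (Fin m → ℝ) => G (Fin.cons q.1 q.2) := by
  have h := hG.comp (MeasurableEquiv.piFinSuccAbove (fun _ : Fin (m + 1) => ℝ) 0).symm.measurable
  have e : (fun q : ℝ × (Fin m → ℝ) => G (Fin.cons q.1 q.2)) =
      G ∘ (MeasurableEquiv.piFinSuccAbove (fun _ : Fin (m + 1) => ℝ) 0).symm := by
    funext q
    exact congrArg G (cons_eq q.1 q.2).symm
  rw [e]; exact h

theorem measurable_slice {G : (Fin (m + 1) → ℝ) → ℝ≥0∞} (hG : Measurable G) :
    Measurable (slice G) := (measurable_cons_comp hG).lintegral_prod_right'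

theorem lintegral_slice {G : (Fin (m + 1) → ℝ) → ℝ≥0∞} (hG : Measurable G) :
    ∫⁻ y, G y = ∫⁻ u, slice G u := by
  rw [← ((volume_preserving_piFinSuccAbove (fun _ : Fin (m + 1) => ℝ) 0).symm _).lintegral_comp hG,
    Measure.volume_eq_prod]
  rw [lintegral_prod (fun q => G ((MeasurableEquiv.piFinSuccAbove (fun x => ℝ) 0).symm q))
    (hG.comp (MeasurableEquiv.measurable _)).aemeasurable]
  refine lintegral_congr fun u => lintegral_congr fun y => ?_
  exact congrArg G (cons_eq u y)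

theorem rel_slice {a b : ℝ} (ha : 0 < a) (hb : 0 < b) (hab : a + b = 1)
    {G G0 G1 : (Fin (m + 1) → ℝ) → ℝ≥0∞}
    (mG : Measurable G) (mG0 : Measurable G0) (mG1 : Measurable G1) (H : Rel a b G G0 G1)
    {σ : ℝ} (hσ : σ = 1 ∨ σ = -1) (x y : ℝ) (hx : 0 < x) (hy : 0 < y) :
    slice G0 (σ * x⁻¹) ^ (a * x / (a * x + b * y)) *
      slice G1 (σ * y⁻¹) ^ (b * y / (a * x + b * y)) ≤ slice G (σ * (a * x + b * y)⁻¹) := by
  have v0 : 0 < a * x + b * y := by positivity
  have w0 : 0 < a * x / (a * x + b * y) := by positivity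
  have w1 : 0 < b * y / (a * x + b * y) := by positivity
  have ww : a * x / (a * x + b * y) + b * y / (a * x + b * y) = 1 := by
    rw [← add_div]; exact div_self v0.ne'
  have hms : ∀ {G : (Fin (m + 1) → ℝ) → ℝ≥0∞} (u : ℝ), Measurable G →
      Measurable fun q : Fin m → ℝ => G (Fin.cons u q) := fun u hG =>
    (measurable_cons_comp hG).comp measurable_prodMk_left
  refine hasPL_pi w0 w1 ww m _ _ _ (hms _ mG0) (hms _ mG1) (hms _ mG) fun p q => ?_
  refine (H σ x y hσ hx hy _ _ (by simp) (by simp)).trans (le_of_eq (congrArg G ?_))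
  funext i
  refine Fin.cases ?_ (fun j => ?_) i
  · simp only [Pi.add_apply, Pi.smul_apply, Fin.cons_zero, smul_eq_mul]
    have : a * x / (a * x + b * y) * (σ * x⁻¹) + b * y / (a * x + b * y) * (σ * y⁻¹) =
      (a + b) * (σ * (a * x + b * y)⁻¹) := by field_simp
    rw [this, hab, one_mul]
  · simp

theorem slice_min {a b : ℝ} (ha : 0 < a) (hb : 0 < b) (hab : a + b = 1)
    {G G0 G1 : (Fin (m + 1) → ℝ) → ℝ≥0∞}
    (mG : Measurable G) (mG0 : Measurable G0) (mG1 : Measurable G1) (H : Rel a b G G0 G1)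
    {σ : ℝ} (hσ : σ = 1 ∨ σ = -1) :
    min (∫⁻ u in Ioi (0 : ℝ), slice G0 (σ * u)) (∫⁻ u in Ioi (0 : ℝ), slice G1 (σ * u)) ≤
      ∫⁻ u in Ioi (0 : ℝ), slice G (σ * u) :=
  ball_min ha hb hab ((measurable_slice mG).comp (measurable_const_mul σ))
    ((measurable_slice mG0).comp (measurable_const_mul σ))
    ((measurable_slice mG1).comp (measurable_const_mul σ))
    fun x y hx hy => rel_slice ha hb hab mG mG0 mG1 H hσ x y hx hy

/-- the integral over a half space -/
noncomputable def hs (σ : ℝ) (G : (Fin (m + 1) → ℝ) → ℝ≥0∞) : ℝ≥0∞ :=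
  ∫⁻ y in {y : Fin (m + 1) → ℝ | 0 < σ * y 0}, G y

theorem measurableSet_half (σ : ℝ) : MeasurableSet {y : Fin (m + 1) → ℝ | 0 < σ * y 0} := by
  apply measurableSet_lt measurable_const
  fun_prop

theorem hs_eq {G : (Fin (m + 1) → ℝ) → ℝ≥0∞} (hG : Measurable G) {σ : ℝ}
    (hσ : σ = 1 ∨ σ = -1) : hs σ G = ∫⁻ u in Ioi (0 : ℝ), slice G (σ * u) := by
  unfold hs
  rw [← lintegral_indicator (measurableSet_half σ),
    lintegral_slice (hG.indicator (measurableSet_half σ)), ← lintegral_indicator measurableSet_Ioi]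
  have e : ∀ u, slice ({y : Fin (m + 1) → ℝ | 0 < σ * y 0}.indicator G) u =
      (Ioi (0 : ℝ)).indicator (fun u => slice G (σ * u)) (σ * u) := by
    intro u
    have s2 : σ * (σ * u) = u := by
      rcases hσ with rfl | rfl <;> ring
    by_cases hu : 0 < σ * u
    · rw [indicator_of_mem (show σ * u ∈ Ioi (0 : ℝ) from hu), s2]
      unfold slice
      refine lintegral_congr fun y => ?_
      rw [indicator_of_mem]
      simpa using hu
    · rw [indicator_of_notMem (show σ * u ∉ Ioi (0 : ℝ) from hu)]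
      unfold slice
      rw [lintegral_congr (g := fun _ => 0) (fun y => ?_)]
      · simp
      · rw [indicator_of_notMem]
        simpa using hu
  rw [lintegral_congr e]
  rcases hσ with rfl | rfl
  · simp
  · simp only [neg_mul, one_mul]
    have := lintegral_neg_eq_self (μ := (volume : Measure ℝ))
      (f := (Ioi (0 : ℝ)).indicator (fun u => slice G (-u)))
    exact this

theorem hs_min {a b : ℝ} (ha : 0 < a) (hb : 0 < b) (hab : a + b = 1)
    {G G0 G1 : (Fin (m + 1) → ℝ) → ℝ≥0∞}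
    (mG : Measurable G) (mG0 : Measurable G0) (mG1 : Measurable G1) (H : Rel a b G G0 G1)
    {σ : ℝ} (hσ : σ = 1 ∨ σ = -1) : min (hs σ G0) (hs σ G1) ≤ hs σ G := by
  rw [hs_eq mG hσ, hs_eq mG0 hσ, hs_eq mG1 hσ]
  exact slice_min ha hb hab mG mG0 mG1 H hσ

theorem hs_add {G : (Fin (m + 1) → ℝ) → ℝ≥0∞} (hG : Measurable G) :
    ∫⁻ y, G y = hs 1 G + hs (-1) G := by
  rw [lintegral_slice hG, hs_eq hG (Or.inl rfl), hs_eq hG (Or.inr rfl)]
  simp only [one_mul, neg_mul]
  rw [← lintegral_add_compl _ (measurableSet_Ioi : MeasurableSet (Ioi (0:ℝ))), compl_Ioi]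
  congr 1
  rw [setLIntegral_congr Iio_ae_eq_Iic.symm, ← lintegral_indicator measurableSet_Iio,
    ← lintegral_indicator measurableSet_Ioi]
  rw [← lintegral_neg_eq_self (μ := (volume : Measure ℝ))
      (f := (Iio (0 : ℝ)).indicator (fun u => slice G u))]
  refine lintegral_congr fun u => ?_
  simp only [indicator_apply, mem_Iio, mem_Ioi, neg_lt_zero]

/-- twisting by an exponential -/
noncomputable def tw (E : (Fin (m + 1) → ℝ) → ℝ≥0∞) (z : Fin (m + 1) → ℝ) (β : ℝ) :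
    (Fin (m + 1) → ℝ) → ℝ≥0∞ :=
  fun y => E y * ENNReal.ofReal (Real.exp (∑ i, z i * y i + β * y 0))

theorem measurable_tw {E : (Fin (m + 1) → ℝ) → ℝ≥0∞} (hE : Measurable E) (z : Fin (m + 1) → ℝ)
    (β : ℝ) : Measurable (tw E z β) := by
  unfold tw
  apply hE.mul
  fun_prop

theorem tw_shift (E : (Fin (m + 1) → ℝ) → ℝ≥0∞) (z : Fin (m + 1) → ℝ) (β : ℝ) :
    tw E z β = tw E (z + Pi.single 0 β) 0 := by
  funext y
  unfold tw
  congr 3
  simp [add_mul, Finset.sum_add_distrib, Pi.single_apply]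

theorem rel_tw {a b : ℝ} (ha : 0 < a) (hb : 0 < b)
    {E E0 E1 : (Fin (m + 1) → ℝ) → ℝ≥0∞} (H : Rel a b E E0 E1) (z : Fin (m + 1) → ℝ) (γ : ℝ) :
    Rel a b (tw E z 0) (tw E0 z (b * γ)) (tw E1 z (-(a * γ))) := by
  intro σ x y hσ hx hy y0 y1 h0 h1
  have v0 : 0 < a * x + b * y := by positivity
  have w0 : 0 < a * x / (a * x + b * y) := by positivity
  have w1 : 0 < b * y / (a * x + b * y) := by positivity
  have key := H σ x y hσ hx hy y0 y1 h0 h1
  set p := a * x / (a * x + b * y) with hp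
  set q := b * y / (a * x + b * y) with hq
  unfold tw
  rw [ENNReal.mul_rpow_of_nonneg _ _ w0.le, ENNReal.mul_rpow_of_nonneg _ _ w1.le,
    mul_mul_mul_comm]
  refine mul_le_mul' key (le_of_eq ?_)
  rw [ENNReal.ofReal_rpow_of_pos (Real.exp_pos _), ENNReal.ofReal_rpow_of_pos (Real.exp_pos _),
    ← ENNReal.ofReal_mul (by positivity), ← Real.exp_mul, ← Real.exp_mul, ← Real.exp_add]
  congr 2
  simp only [Pi.add_apply, Pi.smul_apply, smul_eq_mul, mul_add, Finset.sum_add_distrib]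
  have e1 : ∑ i, z i * (p * y0 i) = (∑ i, z i * y0 i) * p := by
    rw [Finset.sum_mul]; exact Finset.sum_congr rfl fun i _ => by ring
  have e2 : ∑ i, z i * (q * y1 i) = (∑ i, z i * y1 i) * q := by
    rw [Finset.sum_mul]; exact Finset.sum_congr rfl fun i _ => by ring
  rw [e1, e2, h0, h1]
  have e3 : b * γ * (σ * x⁻¹) * p - a * γ * (σ * y⁻¹) * q = 0 := by
    rw [hp, hq]; field_simp; ring
  linear_combination e3

theorem hs_closed {E : (Fin (m + 1) → ℝ) → ℝ≥0∞} (hE : Measurable E) (z : Fin (m + 1) → ℝ)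
    (σ κ : ℝ) (A : ℝ≥0∞) : IsClosed {γ : ℝ | hs σ (tw E z (κ * γ)) ≤ A} := by
  apply IsSeqClosed.isClosed
  intro g γ hg hl
  simp only [mem_ofPred_eq] at hg ⊢
  have hl' : ∀ y, Filter.Tendsto (fun k => tw E z (κ * g k) y) Filter.atTop
      (nhds (tw E z (κ * γ) y)) := by
    intro y
    unfold tw
    apply ENNReal.Tendsto.const_mul
    · apply ENNReal.tendsto_ofReal
      apply (Real.continuous_exp.tendsto _).comp
      exact ((hl.const_mul κ).mul_const _).const_add _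
    · left
      simp [Real.exp_pos]
  have h1 : hs σ (tw E z (κ * γ)) ≤
      Filter.liminf (fun k => hs σ (tw E z (κ * g k))) Filter.atTop := by
    unfold hs
    refine le_trans (le_of_eq ?_) (lintegral_liminf_le fun k => measurable_tw hE z _)
    exact lintegral_congr fun y => (hl' y).liminf_eq.symm
  refine h1.trans ?_
  exact Filter.liminf_le_of_le (by isBoundedDefault) fun c hc => by
    obtain ⟨k, hk⟩ := hc.exists
    exact hk.trans (hg k)

theorem hs_unbdd {E : (Fin (m + 1) → ℝ) → ℝ≥0∞} (hE : Measurable E) (hpos : ∀ y, E y ≠ 0)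
    (z : Fin (m + 1) → ℝ)
    {σ κ : ℝ} (hσ : σ = 1 ∨ σ = -1) (hκ : κ ≠ 0) {A : ℝ≥0∞} (hA : A ≠ ⊤)
    (h : ∀ γ : ℝ, hs σ (tw E z (κ * γ)) ≤ A) : False := by
  set D := hs σ (fun y => tw E z 0 y * ENNReal.ofReal (σ * y 0)) with hD
  have hmD : Measurable fun y : Fin (m + 1) → ℝ => tw E z 0 y * ENNReal.ofReal (σ * y 0) := by
    apply (measurable_tw hE z 0).mul
    fun_prop
  have hD0 : D ≠ 0 := by
    rw [hD]
    unfold hs
    rw [Ne, lintegral_eq_zero_iff hmD]
    intro h0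
    rw [Filter.EventuallyEq, ae_restrict_iff' (measurableSet_half σ)] at h0
    have h1 : volume {y : Fin (m + 1) → ℝ | 0 < σ * y 0} = 0 := by
      refine measure_mono_null ?_ h0
      intro y hy
      simp only [mem_ofPred_eq] at hy
      simp only [mem_compl_iff, mem_ofPred_eq, Classical.not_imp]
      refine ⟨hy, ?_⟩
      simp only [Pi.zero_apply, mul_eq_zero, not_or]
      refine ⟨?_, by simpa using hy⟩
      unfold tw
      simp [hpos y, Real.exp_pos]
    have h2 : IsOpen {y : Fin (m + 1) → ℝ | 0 < σ * y 0} := by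
      apply isOpen_lt continuous_const
      fun_prop
    have h3 : {y : Fin (m + 1) → ℝ | 0 < σ * y 0}.Nonempty := by
      refine ⟨fun _ => σ, ?_⟩
      simp only [mem_ofPred_eq]
      rcases hσ with rfl | rfl <;> norm_num
    exact (h2.measure_pos volume h3).ne' h1
  have hk : ∀ k : ℕ, (k : ℝ≥0∞) * D ≤ A := by
    intro k
    refine le_trans ?_ (h (k * σ / κ))
    rw [hD]
    unfold hs
    rw [← lintegral_const_mul _ hmD]
    apply setLIntegral_mono' (measurableSet_half σ)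
    intro y hy
    simp only [mem_ofPred_eq] at hy
    unfold tw
    rw [mul_comm, mul_assoc, mul_assoc]
    refine mul_le_mul_right ?_ _
    rw [← ENNReal.ofReal_natCast, ← ENNReal.ofReal_mul hy.le,
      ← ENNReal.ofReal_mul (Real.exp_pos _).le]
    apply ENNReal.ofReal_le_ofReal
    have e : ∑ i, z i * y i + κ * (k * σ / κ) * y 0 =
        (∑ i, z i * y i + 0 * y 0) + σ * y 0 * k := by
      field_simp
      ring
    rw [e, Real.exp_add (∑ i, z i * y i + 0 * y 0)]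
    apply mul_le_mul_of_nonneg_left _ (Real.exp_pos _).le
    have := Real.add_one_le_exp (σ * y 0 * k)
    linarith
  have : (⊤ : ℝ≥0∞) ≤ A := by
    rw [← ENNReal.top_mul hD0, ← ENNReal.iSup_natCast, ENNReal.iSup_mul]
    exact iSup_le hk
  exact hA (top_le_iff.1 this)

/-- the balancing argument: the minimum inequality for full integrals -/
theorem balance {a b : ℝ} (ha : 0 < a) (hb : 0 < b) (hab : a + b = 1)
    {E E0 E1 : (Fin (m + 1) → ℝ) → ℝ≥0∞} (hE : Measurable E) (hE0 : Measurable E0)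
    (hE1 : Measurable E1) (p0 : ∀ y, E0 y ≠ 0) (H : Rel a b E E0 E1)
    {c : ℝ≥0∞} (h0 : ∀ z, c ≤ ∫⁻ y, tw E0 z 0 y) (h1 : ∀ z, c ≤ ∫⁻ y, tw E1 z 0 y)
    (z : Fin (m + 1) → ℝ) : c ≤ ∫⁻ y, tw E z 0 y := by
  by_contra hc
  push Not at hc
  rw [hs_add (measurable_tw hE z 0)] at hc
  set A := hs 1 (tw E z 0) with hA
  set B := hs (-1) (tw E z 0) with hB
  have At : A ≠ ⊤ := fun h => by simp [h] at hc
  have Bt : B ≠ ⊤ := fun h => by simp [h] at hc
  have q0 : ∀ γ, ¬ (hs 1 (tw E0 z (b * γ)) ≤ A ∧ hs (-1) (tw E0 z (b * γ)) ≤ B) := by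
    rintro γ ⟨u, v⟩
    have := h0 (z + Pi.single 0 (b * γ))
    rw [← tw_shift, hs_add (measurable_tw hE0 z _)] at this
    exact absurd (this.trans (add_le_add u v)) (not_le.2 hc)
  have q1 : ∀ γ, ¬ (hs 1 (tw E1 z (-a * γ)) ≤ A ∧ hs (-1) (tw E1 z (-a * γ)) ≤ B) := by
    rintro γ ⟨u, v⟩
    have := h1 (z + Pi.single 0 (-a * γ))
    rw [← tw_shift, hs_add (measurable_tw hE1 z _)] at this
    exact absurd (this.trans (add_le_add u v)) (not_le.2 hc)
  have r : ∀ (σ : ℝ), (σ = 1 ∨ σ = -1) → ∀ γ : ℝ, hs σ (tw E0 z (b * γ)) ≤ hs σ (tw E z 0) ∨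
      hs σ (tw E1 z (-a * γ)) ≤ hs σ (tw E z 0) := by
    intro σ hσ γ
    rw [neg_mul]
    exact min_le_iff.1 (hs_min ha hb hab (measurable_tw hE z 0) (measurable_tw hE0 z _)
      (measurable_tw hE1 z _) (rel_tw ha hb H z γ) hσ)
  set S1 : Set ℝ := {γ | hs 1 (tw E0 z (b * γ)) ≤ A} ∩ {γ | hs (-1) (tw E1 z (-a * γ)) ≤ B}
    with hS1
  set S2 : Set ℝ := {γ | hs 1 (tw E1 z (-a * γ)) ≤ A} ∩ {γ | hs (-1) (tw E0 z (b * γ)) ≤ B}
    with hS2
  have c1 : IsClosed S1 := (hs_closed hE0 z 1 b A).inter (hs_closed hE1 z (-1) (-a) B)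
  have c2 : IsClosed S2 := (hs_closed hE1 z 1 (-a) A).inter (hs_closed hE0 z (-1) b B)
  have hcompl : S1ᶜ = S2 := by
    ext γ
    simp only [mem_compl_iff, hS1, hS2, mem_inter_iff, mem_ofPred_eq]
    have a0 := q0 γ
    have a1 := q1 γ
    have r1 := r 1 (Or.inl rfl) γ
    have r2 := r (-1) (Or.inr rfl) γ
    tauto
  have hclopen : IsClopen S1 := ⟨c1, by rw [← compl_compl S1, hcompl]; exact c2.isOpen_compl⟩
  rcases isClopen_iff.1 hclopen with h | h
  · have : S2 = univ := by rw [← hcompl, h, compl_empty]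
    refine hs_unbdd hE0 p0 z (σ := -1) (κ := b) (Or.inr rfl) hb.ne' Bt fun γ => ?_
    have : γ ∈ S2 := this ▸ mem_univ γ
    exact this.2
  · refine hs_unbdd hE0 p0 z (σ := 1) (κ := b) (Or.inl rfl) hb.ne' At fun γ => ?_
    have : γ ∈ S1 := h ▸ mem_univ γ
    exact this.1

end Pool.Agent.Helper72.LM
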