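import Pool.Agent.Helper72.LM.Final

set_option autoImplicit false
open MeasureTheory Set
open scoped ENNReal Matrix

namespace Pool.Agent.Helper72.LM

theorem one_dim {q : ℝ} {E : Set (Fin 1 → ℝ) → (Fin 1 → ℝ) → ℝ≥0∞}
    (hE : Good 0 q E) {K : Set (Fin 1 → ℝ)} (hK : Bd K) (hc : Convex ℝ K) :
    Vp E (Dl 1) ≤ Vp E K := by
  have hcont : Continuous fun x : Fin 1 → ℝ => x 0 := by fun_prop
  have h1 : IsConnected ((fun x : Fin 1 → ℝ => x 0) '' K) :=
    ⟨hK.nonempty.image _, hc.isPreconnected.image _ hcont.continuousOn⟩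
  have h2 := eq_Icc_of_connected_compact h1 (hK.cpt.image hcont)
  set a := sInf ((fun x : Fin 1 → ℝ => x 0) '' K) with ha
  set b := sSup ((fun x : Fin 1 → ℝ => x 0) '' K) with hb
  have hmem : ∀ x : Fin 1 → ℝ, x ∈ K ↔ x 0 ∈ Icc a b := by
    intro x
    rw [← h2]
    constructor
    · intro h; exact ⟨x, h, rfl⟩
    · rintro ⟨y, hy, hxy⟩
      have : y = x := by
        funext i
        fin_cases i
        exact hxy
      exact this ▸ hy
  have hab : a < b := by
    obtain ⟨x, hx⟩ := hK.int
    have hxK := (hmem x).1 (interior_subset hx)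
    have hcn : Continuous fun ε : ℝ => (fun i => x i + ε : Fin 1 → ℝ) := by fun_prop
    have h0 : (fun ε : ℝ => (fun i => x i + ε : Fin 1 → ℝ)) ⁻¹' interior K ∈ nhds (0 : ℝ) := by
      apply hcn.continuousAt.preimage_mem_nhds
      simp only [add_zero]
      exact isOpen_interior.mem_nhds hx
    obtain ⟨ε, hε, hbl⟩ := Metric.mem_nhds_iff.1 h0
    have h3 : (ε / 2) ∈ Metric.ball (0 : ℝ) ε := by
      rw [Metric.mem_ball, Real.dist_eq, sub_zero, abs_of_pos (by positivity)]; linarith
    have h4 := (hmem _).1 (interior_subset (hbl h3))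
    have := h4.2
    simp only at this
    linarith [hxK.1]
  have hd : 0 < b - a := by linarith
  have hdet : ((b - a) • (1 : Matrix (Fin 1) (Fin 1) ℝ)).det ≠ 0 := by
    simp [hd.ne']
  have e : K = (fun x : Fin 1 → ℝ => ((b - a) • (1 : Matrix (Fin 1) (Fin 1) ℝ)) *ᵥ x +
      (fun _ => a)) '' Dl 1 := by
    ext x
    rw [hmem]
    constructor
    · rintro ⟨h3, h4⟩
      refine ⟨fun _ => (x 0 - a) / (b - a), ⟨fun i => div_nonneg (by linarith) hd.le, ?_⟩, ?_⟩
      · simp only [Finset.univ_unique, Fin.default_eq_zero, Finset.sum_singleton]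
        rw [div_le_one hd]; linarith
      · funext i
        fin_cases i
        simp [Matrix.smul_mulVec]
        field_simp
        ring
    · rintro ⟨z, ⟨hz0, hz1⟩, rfl⟩
      have z0 := hz0 0
      simp only [Finset.univ_unique, Fin.default_eq_zero, Finset.sum_singleton] at hz1
      simp only [Matrix.smul_mulVec, Matrix.one_mulVec, Pi.add_apply, Pi.smul_apply, smul_eq_mul]
      constructor
      · nlinarith
      · nlinarith
  rw [e, Vp_aff hE (bd_Dl 1) hdet]

end Pool.Agent.Helper72.LM
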