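import Pool.Agent.Helper72.LM.Good

set_option autoImplicit false
open MeasureTheory Set
open scoped ENNReal Matrix

namespace Pool.Agent.Helper72.LM

/-- the plane -/
abbrev P2 : Type := Fin 2 → ℝ

/-- the speed function of the vertex movement -/
noncomputable def α2 (x : P2) : ℝ := max (x 1) 0

theorem sp_α2 : Sp (m := 1) α2 := by
  constructor
  · unfold α2; fun_prop
  · intro x s
    unfold α2
    simp

theorem Vp_shear' {m : ℕ} {q : ℝ} {E : Set (Fin (m + 1) → ℝ) → (Fin (m + 1) → ℝ) → ℝ≥0∞}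
    (hE : Good m q E) {K : Set (Fin (m + 1) → ℝ)} (hK : Bd K) {α : (Fin (m + 1) → ℝ) → ℝ}
    (hα : Sp α) {t0 t1 : ℝ} (h0 : t0 ≤ 0) (h1 : 0 ≤ t1) :
    min (Vp E (sh α t0 '' K)) (Vp E (sh α t1 '' K)) ≤ Vp E K := by
  have e : sh α 0 '' K = K := by
    have : sh α 0 = id := by funext x; exact sh_zero α x
    rw [this, image_id]
  rcases h0.eq_or_lt with rfl | h0
  · rw [e]; exact min_le_left _ _
  rcases h1.eq_or_lt with rfl | h1
  · rw [e]; exact min_le_right _ _
  exact Vp_shear hE hK hα h0 h1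

/-- the standard simplex -/
def Dl (n : ℕ) : Set (Fin n → ℝ) := {z | (∀ i, 0 ≤ z i) ∧ ∑ i, z i ≤ 1}

/-- points in normal position with respect to the segment from `(0,0)` to `(1,0)` -/
def NP (t : ℝ) (x : P2) : Prop := x 1 ≤ 0 ∧ 0 ≤ x 0 - x 1 * t ∧ x 0 - x 1 * t ≤ 1 - x 1

theorem NP_hull {t : ℝ} {T : Set P2} (h : ∀ s ∈ T, NP t s) : ∀ x ∈ convexHull ℝ T, NP t x := by
  have : Convex ℝ {x : P2 | NP t x} := by
    intro x hx y hy a b ha hb hab
    obtain ⟨x1, x2, x3⟩ := hx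
    obtain ⟨y1, y2, y3⟩ := hy
    simp only [mem_ofPred_eq, NP, Pi.add_apply, Pi.smul_apply, smul_eq_mul]
    refine ⟨?_, ?_, ?_⟩
    · nlinarith [mul_nonneg ha (neg_nonneg.2 x1), mul_nonneg hb (neg_nonneg.2 y1)]
    · nlinarith [mul_nonneg ha x2, mul_nonneg hb y2]
    · nlinarith [mul_nonneg ha (sub_nonneg.2 x3), mul_nonneg hb (sub_nonneg.2 y3)]
  exact fun x hx => convexHull_min (t := {x : P2 | NP t x}) h this hx

theorem mem_hull_cons {T : Set P2} {v x : P2} (hT : T.Nonempty)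
    (hx : x ∈ convexHull ℝ (insert v T)) :
    ∃ q ∈ convexHull ℝ T, ∃ a b : ℝ, 0 ≤ a ∧ 0 ≤ b ∧ a + b = 1 ∧ x = a • v + b • q := by
  rw [convexHull_insert hT, mem_convexJoin] at hx
  obtain ⟨v', hv', q, hq, hxq⟩ := hx
  rw [mem_singleton_iff] at hv'
  subst hv'
  obtain ⟨a, b, ha, hb, hab, rfl⟩ := hxq
  exact ⟨q, hq, a, b, ha, hb, hab, rfl⟩

theorem comb_mem {K : Set P2} (hK : Convex ℝ K) {x y z : P2} (hx : x ∈ K) (hy : y ∈ K)
    {l : ℝ} (h0 : 0 ≤ l) (h1 : l ≤ 1) (e0 : z 0 = l * x 0 + (1 - l) * y 0)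
    (e1 : z 1 = l * x 1 + (1 - l) * y 1) : z ∈ K := by
  have : z = l • x + (1 - l) • y := by
    funext i
    fin_cases i
    · simpa using e0
    · simpa using e1
  rw [this]
  exact hK hx hy h0 (by linarith) (by ring)

theorem bottom_mem {T : Set P2} (hu : ![0, 0] ∈ T) (hw : ![1, 0] ∈ T) {c : ℝ} (h0 : 0 ≤ c)
    (h1 : c ≤ 1) : (![c, 0] : P2) ∈ convexHull ℝ T := by
  refine comb_mem (convex_convexHull ℝ T) (subset_convexHull ℝ T hw) (subset_convexHull ℝ T hu)
    h0 h1 ?_ ?_ <;> simp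

theorem sh_mem {T : Set P2} (hu : ![0, 0] ∈ T) (hw : ![1, 0] ∈ T) {t t' : ℝ}
    (h : ∀ s ∈ T, NP t s) {x : P2}
    (hx : x ∈ convexHull ℝ (insert ![t, 1] T)) :
    sh α2 (t' - t) x ∈ convexHull ℝ (insert ![t', 1] T) := by
  obtain ⟨q, hq, a, b, ha, hb, hab, rfl⟩ := mem_hull_cons ⟨_, hu⟩ hx
  obtain ⟨n1, n2, n3⟩ := NP_hull h q hq
  have hsub : convexHull ℝ T ⊆ convexHull ℝ (insert ![t', 1] T) :=
    convexHull_mono (subset_insert _ _)
  have q1 : 0 < 1 - q 1 := by linarith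
  set c : ℝ := (q 0 - q 1 * t) / (1 - q 1) with hc
  have c0 : 0 ≤ c := div_nonneg n2 q1.le
  have c1 : c ≤ 1 := (div_le_one q1).2 n3
  have hcm : (![c, 0] : P2) ∈ convexHull ℝ T := bottom_mem hu hw c0 c1
  have hcq : c * (1 - q 1) = q 0 - q 1 * t := by rw [hc]; field_simp
  have hb' : b = 1 - a := by linarith
  subst hb'
  rcases le_total (a + (1 - a) * q 1) 0 with hx1 | hx1
  · have e : sh α2 (t' - t) (a • ![t, 1] + (1 - a) • q) = a • ![t, 1] + (1 - a) • q := by
      unfold sh α2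
      simp [max_eq_right hx1]
    rw [e]
    apply hsub
    rcases n1.eq_or_lt with hq1 | hq1
    · have : a = 0 := by rw [hq1] at hx1; linarith
      rw [this]; simpa using hq
    · have hne : q 1 ≠ 0 := hq1.ne
      have hne2 : 1 - q 1 ≠ 0 := q1.ne'
      refine comb_mem (convex_convexHull ℝ T) hq hcm (l := (a + (1 - a) * q 1) / q 1) ?_ ?_ ?_ ?_
      · exact div_nonneg_of_nonpos hx1 hq1.le
      · rw [div_le_one_of_neg hq1]; nlinarith
      · simp only [Pi.add_apply, Pi.smul_apply, smul_eq_mul, Matrix.cons_val_zero]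
        have : c = (q 0 - q 1 * t) / (1 - q 1) := hc
        rw [this]
        field_simp
        ring
      · simp only [Pi.add_apply, Pi.smul_apply, smul_eq_mul, Matrix.cons_val_one,
          Matrix.cons_val_fin_one]
        field_simp
        ring
  · refine comb_mem (convex_convexHull ℝ _) (subset_convexHull ℝ _ (mem_insert _ _)) (hsub hcm)
      (l := a + (1 - a) * q 1) hx1 (by nlinarith) ?_ ?_
    · unfold sh α2
      simp only [Pi.add_apply, Pi.smul_apply, smul_eq_mul, Matrix.cons_val_zero,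
        Matrix.cons_val_one, Matrix.cons_val_fin_one, Pi.single_eq_same, mul_one,
        max_eq_left hx1]
      have : (1 - (a + (1 - a) * q 1)) * c = (1 - a) * (c * (1 - q 1)) := by ring
      rw [this, hcq]
      ring
    · unfold sh α2
      simp only [Pi.add_apply, Pi.smul_apply, smul_eq_mul, Matrix.cons_val_zero,
        Matrix.cons_val_one, Matrix.cons_val_fin_one, mul_one, mul_zero, add_zero]
      simp

theorem hull_sh {T : Set P2} (hu : ![0, 0] ∈ T) (hw : ![1, 0] ∈ T) {t : ℝ}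
    (h0 : ∀ s ∈ T, NP 0 s) (h : ∀ s ∈ T, NP t s) :
    sh α2 t '' convexHull ℝ (insert ![0, 1] T) = convexHull ℝ (insert ![t, 1] T) := by
  apply Subset.antisymm
  · rintro _ ⟨x, hx, rfl⟩
    have := sh_mem (t' := t) hu hw h0 hx
    rwa [sub_zero] at this
  · intro x hx
    have := sh_mem (t' := 0) hu hw h hx
    refine ⟨_, this, ?_⟩
    rw [sh_sh sp_α2]
    simp [sh_zero]

end Pool.Agent.Helper72.LM
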