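import Pool.Agent.Helper72.LM.Poly

set_option autoImplicit false
open MeasureTheory Set
open scoped ENNReal Matrix

namespace Pool.Agent.Helper72.LM

theorem hull_erase {T : Set P2} {x : P2} (h : x ∈ convexHull ℝ (T \ {x})) :
    convexHull ℝ T = convexHull ℝ (T \ {x}) := by
  apply Subset.antisymm
  · refine convexHull_min ?_ (convex_convexHull ℝ _)
    intro y hy
    by_cases e : y = x
    · rw [e]; exact h
    · exact subset_convexHull ℝ _ ⟨hy, e⟩
  · exact convexHull_mono sdiff_subset

theorem convex_Dl (n : ℕ) : Convex ℝ (Dl n) := by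
  intro x hx y hy a b ha hb hab
  refine ⟨fun i => ?_, ?_⟩
  · simp only [Pi.add_apply, Pi.smul_apply, smul_eq_mul]
    exact add_nonneg (mul_nonneg ha (hx.1 i)) (mul_nonneg hb (hy.1 i))
  · simp only [Pi.add_apply, Pi.smul_apply, smul_eq_mul, Finset.sum_add_distrib, ← Finset.mul_sum]
    nlinarith [mul_le_mul_of_nonneg_left hx.2 ha, mul_le_mul_of_nonneg_left hy.2 hb]

theorem hull_Dl : convexHull ℝ (insert (![0, 1] : P2) {![0, 0], ![1, 0]}) = Dl 2 := by
  apply Subset.antisymm
  · refine convexHull_min ?_ (convex_Dl 2)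
    rintro x (rfl | rfl | rfl)
    · refine ⟨fun i => ?_, ?_⟩
      · fin_cases i <;> simp
      · simp [Fin.sum_univ_two]
    · refine ⟨fun i => ?_, ?_⟩
      · fin_cases i <;> simp
      · simp [Fin.sum_univ_two]
    · refine ⟨fun i => ?_, ?_⟩
      · fin_cases i <;> simp
      · simp [Fin.sum_univ_two]
  · rintro z ⟨h0, h1⟩
    rw [Fin.sum_univ_two] at h1
    have z0 := h0 0
    have z1 := h0 1
    set H := convexHull ℝ (insert (![0, 1] : P2) {![0, 0], ![1, 0]}) with hH
    have hv : (![0, 1] : P2) ∈ H := subset_convexHull ℝ _ (by simp)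
    have hu : (![0, 0] : P2) ∈ H := subset_convexHull ℝ _ (by simp)
    have hw : (![1, 0] : P2) ∈ H := subset_convexHull ℝ _ (by simp)
    have hz : z = z 1 • (![0, 1] : P2) + z 0 • ![1, 0] + (1 - z 0 - z 1) • ![0, 0] := by
      funext i
      fin_cases i <;> simp
    have := (convex_convexHull ℝ (insert (![0, 1] : P2) {![0, 0], ![1, 0]})).sum_mem
      (t := Finset.univ) (w := ![z 1, z 0, 1 - z 0 - z 1]) (z := ![![0, 1], ![1, 0], ![0, 0]])
      (by intro i _; fin_cases i <;> simp <;> linarith)
      (by rw [Fin.sum_univ_three]; simp; ring)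
      (by intro i _; fin_cases i <;> assumption)
    rw [Fin.sum_univ_three] at this
    rw [hz]
    exact this

theorem step_normal {q : ℝ} {E : Set P2 → P2 → ℝ≥0∞} (hE : Good 1 q E) {T : Finset P2}
    (hu : ![0, 0] ∈ T) (hw : ![1, 0] ∈ T)
    (hT : ∀ s ∈ T, s ≠ ![0, 0] → s ≠ ![1, 0] → s 1 < 0 ∧ 0 ≤ s 0 ∧ s 0 + s 1 ≤ 1)
    (hbd : Bd (convexHull ℝ (insert ![0, 1] (T : Set P2))))
    (IH : ∀ R : Finset P2, R.card ≤ T.card → Bd (convexHull ℝ (R : Set P2)) →
      Vp E (Dl 2) ≤ Vp E (convexHull ℝ (R : Set P2))) :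
    Vp E (Dl 2) ≤ Vp E (convexHull ℝ (insert ![0, 1] (T : Set P2))) := by
  classical
  by_cases hne : (T.filter fun s => s 1 < 0).Nonempty
  · obtain ⟨s0, hs0, m0⟩ := Finset.exists_max_image _ (fun s : P2 => s 0 / s 1) hne
    obtain ⟨s1, hs1, m1⟩ := Finset.exists_min_image _ (fun s : P2 => (1 - s 0 - s 1) / (-s 1)) hne
    rw [Finset.mem_filter] at hs0 hs1
    have hT' : ∀ s ∈ T, s 1 < 0 → 0 ≤ s 0 ∧ s 0 + s 1 ≤ 1 := by
      intro s hs h1
      refine (hT s hs ?_ ?_).2
      · rintro rfl; simp at h1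
      · rintro rfl; simp at h1
    set t0 := s0 0 / s0 1 with ht0
    set t1 := (1 - s1 0 - s1 1) / (-s1 1) with ht1
    have t00 : t0 ≤ 0 := div_nonpos_of_nonneg_of_nonpos (hT' _ hs0.1 hs0.2).1 hs0.2.le
    have t10 : 0 ≤ t1 := div_nonneg (by linarith [(hT' _ hs1.1 hs1.2).2]) (by linarith [hs1.2])
    have np : ∀ t, t0 ≤ t → t ≤ t1 → ∀ s ∈ (T : Set P2), NP t s := by
      intro t h0 h1 s hs
      by_cases e0 : s = ![0, 0]
      · subst e0; simp [NP]
      by_cases e1 : s = ![1, 0]
      · subst e1; simp [NP]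
      obtain ⟨a1, a2, a3⟩ := hT s hs e0 e1
      have hf : s ∈ T.filter fun s => s 1 < 0 := Finset.mem_filter.2 ⟨hs, a1⟩
      have b0 := (m0 s hf).trans h0
      have b1 := h1.trans (m1 s hf)
      rw [div_le_iff_of_neg a1] at b0
      rw [le_div_iff₀ (by linarith)] at b1
      refine ⟨a1.le, by linarith, by linarith⟩
    have e0 := hull_sh (T := (T : Set P2)) hu hw (np 0 t00 t10) (np t0 le_rfl (t00.trans t10))
    have e1 := hull_sh (T := (T : Set P2)) hu hw (np 0 t00 t10) (np t1 (t00.trans t10) le_rfl)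
    have key := Vp_shear' hE hbd sp_α2 t00 t10
    rw [e0, e1] at key
    have bd0 : Bd (convexHull ℝ (insert ![t0, 1] (T : Set P2))) := e0 ▸ hbd.sh sp_α2 t0
    have bd1 : Bd (convexHull ℝ (insert ![t1, 1] (T : Set P2))) := e1 ▸ hbd.sh sp_α2 t1
    have gen : ∀ (t : ℝ) (r s : P2), r ∈ T → s ∈ T → s ≠ r →
        r ∈ convexHull ℝ ({![t, 1], s} : Set P2) → (![t, 1] : P2) ≠ r →
        Bd (convexHull ℝ (insert ![t, 1] (T : Set P2))) →
        Vp E (Dl 2) ≤ Vp E (convexHull ℝ (insert ![t, 1] (T : Set P2))) := by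
      intro t r s hr hs hsr hmem hvr hb
      have e : convexHull ℝ (insert ![t, 1] (T : Set P2)) =
          convexHull ℝ ((insert ![t, 1] (T.erase r) : Finset P2) : Set P2) := by
        rw [hull_erase (x := r)]
        · congr 1
          ext x
          simp only [mem_sdiff, mem_insert_iff, mem_singleton_iff, Finset.coe_insert,
            Finset.coe_erase, SetLike.mem_coe]
          constructor
          · rintro ⟨h1 | h1, h2⟩
            · exact Or.inl h1
            · exact Or.inr ⟨h1, h2⟩
          · rintro (h1 | ⟨h1, h2⟩)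
            · exact ⟨Or.inl h1, h1 ▸ hvr⟩
            · exact ⟨Or.inr h1, h2⟩
        · refine convexHull_mono ?_ hmem
          rintro x (rfl | rfl)
          · exact ⟨mem_insert _ _, hvr⟩
          · exact ⟨mem_insert_of_mem _ hs, hsr⟩
      rw [e]
      refine IH _ ?_ (e ▸ hb)
      refine (Finset.card_insert_le _ _).trans ?_
      rw [Finset.card_erase_of_mem hr]
      have := Finset.card_pos.2 ⟨r, hr⟩
      omega
    refine le_trans (le_min ?_ ?_) key
    · refine gen t0 ![0, 0] s0 hu hs0.1 ?_ ?_ ?_ bd0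
      · rintro rfl; simp at hs0
      · have n := hs0.2
        refine comb_mem (convex_convexHull ℝ _) (x := s0) (y := ![t0, 1])
          (subset_convexHull ℝ _ (by simp)) (subset_convexHull ℝ _ (by simp))
          (l := 1 / (1 - s0 1)) (by apply div_nonneg <;> linarith)
          ((div_le_one (by linarith)).2 (by linarith)) ?_ ?_
        · have h1 : 1 - s0 1 ≠ 0 := by linarith
          have h2 : s0 1 ≠ 0 := n.ne
          simp only [Matrix.cons_val_zero]
          rw [ht0]; field_simp; ring
        · have h1 : 1 - s0 1 ≠ 0 := by linarith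
          simp only [Matrix.cons_val_one, Matrix.cons_val_fin_one]
          field_simp; ring
      · intro h
        have := congrFun h 1
        simp at this
    · refine gen t1 ![1, 0] s1 hw hs1.1 ?_ ?_ ?_ bd1
      · rintro rfl; simp at hs1
      · have n := hs1.2
        refine comb_mem (convex_convexHull ℝ _) (x := s1) (y := ![t1, 1])
          (subset_convexHull ℝ _ (by simp)) (subset_convexHull ℝ _ (by simp))
          (l := 1 / (1 - s1 1)) (by apply div_nonneg <;> linarith)
          ((div_le_one (by linarith)).2 (by linarith)) ?_ ?_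
        · have h1 : 1 - s1 1 ≠ 0 := by linarith
          have h2 : s1 1 ≠ 0 := n.ne
          simp only [Matrix.cons_val_zero]
          rw [ht1]; field_simp; ring
        · have h1 : 1 - s1 1 ≠ 0 := by linarith
          simp only [Matrix.cons_val_one, Matrix.cons_val_fin_one]
          field_simp; ring
      · intro h
        have := congrFun h 1
        simp at this
  · have hT2 : (T : Set P2) = {![0, 0], ![1, 0]} := by
      ext s
      constructor
      · intro hs
        by_contra hc
        simp only [mem_insert_iff, mem_singleton_iff, not_or] at hc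
        exact hne ⟨s, Finset.mem_filter.2 ⟨hs, (hT s hs hc.1 hc.2).1⟩⟩
      · rintro (rfl | rfl)
        · exact hu
        · exact hw
    rw [hT2, hull_Dl]

end Pool.Agent.Helper72.LM
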