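import Pool.Agent.Helper72.LM.Poly2

set_option autoImplicit false
open MeasureTheory Set
open scoped ENNReal Matrix

namespace Pool.Agent.Helper72.LM

def cr (p q : P2) : ℝ := p 0 * q 1 - p 1 * q 0

theorem line_interior {c0 c1 d : ℝ} (hc : 0 < c0 ^ 2 + c1 ^ 2) {K : Set P2}
    (hK : ∀ x ∈ K, c0 * x 0 + c1 * x 1 = d) : ¬ (interior K).Nonempty := by
  rintro ⟨x, hx⟩
  have hcont : Continuous fun ε : ℝ => (x + ε • ![c0, c1] : P2) := by fun_prop
  have h0 : (fun ε : ℝ => (x + ε • ![c0, c1] : P2)) ⁻¹' interior K ∈ nhds (0 : ℝ) := by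
    apply hcont.continuousAt.preimage_mem_nhds
    simp only [zero_smul, add_zero]
    exact isOpen_interior.mem_nhds hx
  obtain ⟨ε, hε, hb⟩ := Metric.mem_nhds_iff.1 h0
  have h1 : (ε / 2) ∈ Metric.ball (0 : ℝ) ε := by
    rw [Metric.mem_ball, Real.dist_eq, sub_zero, abs_of_pos (by positivity)]; linarith
  have h2 := hK _ (interior_subset (hb h1))
  have h3 := hK x (interior_subset hx)
  simp at h2
  nlinarith

theorem frame {S' : Set P2} (hfin : S'.Finite) {v : P2} (hv : v ∉ convexHull ℝ S')
    (hbd : (interior (convexHull ℝ (insert v S'))).Nonempty) :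
    ∃ u ∈ S', ∃ w ∈ S', 0 < cr (u - v) (w - v) ∧
      ∀ s ∈ S', 0 ≤ cr (s - v) (w - v) ∧ 0 ≤ cr (u - v) (s - v) := by
  obtain ⟨f, c, h1, h2⟩ := geometric_hahn_banach_point_closed (convex_convexHull ℝ S')
    (hfin.isClosed_convexHull ℝ) hv
  set f0 := f (Pi.single 0 1) with hf0
  set f1 := f (Pi.single 1 1) with hf1
  have hf : ∀ x : P2, f x = x 0 * f0 + x 1 * f1 := by
    intro x
    have : x = x 0 • (Pi.single 0 1 : P2) + x 1 • (Pi.single 1 1 : P2) := by
      funext i
      fin_cases i <;> simp
    conv_lhs => rw [this]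
    rw [map_add, map_smul, map_smul]
    rfl
  set F : P2 → ℝ := fun s => f0 * (s 0 - v 0) + f1 * (s 1 - v 1) with hF
  set G : P2 → ℝ := fun s => -f1 * (s 0 - v 0) + f0 * (s 1 - v 1) with hG
  have Fpos : ∀ s ∈ S', 0 < F s := by
    intro s hs
    have a1 := h2 s (subset_convexHull ℝ _ hs)
    rw [hf] at h1 a1
    simp only [hF]
    linarith
  have id1 : ∀ p q : P2, cr (p - v) (q - v) * (f0 ^ 2 + f1 ^ 2) = F p * G q - F q * G p := by
    intro p q
    simp only [cr, hF, hG, Pi.sub_apply]
    ring
  have hne : S'.Nonempty := by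
    by_contra h
    rw [not_nonempty_iff_eq_empty] at h
    subst h
    simp at hbd
  have hff : 0 < f0 ^ 2 + f1 ^ 2 := by
    obtain ⟨s, hs⟩ := hne
    have := Fpos s hs
    by_contra h
    push Not at h
    have e0 : f0 = 0 := by nlinarith [sq_nonneg f0, sq_nonneg f1]
    have e1 : f1 = 0 := by nlinarith [sq_nonneg f0, sq_nonneg f1]
    simp only [hF, e0, e1] at this
    simp at this
  obtain ⟨u, hu, mu⟩ := hfin.toFinset.exists_min_image (fun s => G s / F s)
    (by simpa using hne)
  obtain ⟨w, hw, mw⟩ := hfin.toFinset.exists_max_image (fun s => G s / F s)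
    (by simpa using hne)
  rw [Finite.mem_toFinset] at hu hw
  simp only [Finite.mem_toFinset] at mu mw
  refine ⟨u, hu, w, hw, ?_, ?_⟩
  · by_contra hcon
    push Not at hcon
    have e1 := id1 u w
    have fu := Fpos u hu
    have fw := Fpos w hw
    have e2 : F u * G w ≤ F w * G u := by nlinarith
    have e3 : G w / F w ≤ G u / F u := by
      rw [div_le_div_iff₀ fw fu]; linarith
    set σ := G u / F u with hσ
    have e4 : ∀ s ∈ S', G s = σ * F s := by
      intro s hs
      have l1 := mu s hs
      have l2 := mw s hs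
      have : G s / F s = σ := le_antisymm (l2.trans e3) l1
      rw [← this]
      have := (Fpos s hs).ne'
      field_simp
    refine line_interior (c0 := -f1 - σ * f0) (c1 := f0 - σ * f1)
      (d := (-f1 - σ * f0) * v 0 + (f0 - σ * f1) * v 1) ?_ ?_ hbd
    · have : (-f1 - σ * f0) ^ 2 + (f0 - σ * f1) ^ 2 = (f0 ^ 2 + f1 ^ 2) * (1 + σ ^ 2) := by ring
      rw [this]; positivity
    · have hcv : Convex ℝ {x : P2 | (-f1 - σ * f0) * x 0 + (f0 - σ * f1) * x 1 =
          (-f1 - σ * f0) * v 0 + (f0 - σ * f1) * v 1} := by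
        intro x hx y hy a b ha hb hab
        simp only [mem_ofPred_eq, Pi.add_apply, Pi.smul_apply, smul_eq_mul] at hx hy ⊢
        have : b = 1 - a := by linarith
        subst this
        linear_combination a * hx + (1 - a) * hy
      refine fun x hx => convexHull_min ?_ hcv hx
      rintro s (rfl | hs)
      · simp
      · have := e4 s hs
        simp only [hF, hG] at this
        simp only [mem_ofPred_eq]
        linarith
  · intro s hs
    have fu := Fpos u hu
    have fw := Fpos w hw
    have fs := Fpos s hs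
    have l1 := mu s hs
    have l2 := mw s hs
    rw [div_le_div_iff₀ fu fs] at l1
    rw [div_le_div_iff₀ fs fw] at l2
    constructor
    · have := id1 s w
      by_contra h
      push Not at h
      nlinarith
    · have := id1 u s
      by_contra h
      push Not at h
      nlinarith

theorem image_hull {n : ℕ} (M : Matrix (Fin n) (Fin n) ℝ) (c : Fin n → ℝ)
    (S : Set (Fin n → ℝ)) : (fun x => M *ᵥ x + c) '' convexHull ℝ S =
      convexHull ℝ ((fun x => M *ᵥ x + c) '' S) := by
  have := AffineMap.image_convexHull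
    ((Matrix.toLin' M).toAffineMap + AffineMap.const ℝ (Fin n → ℝ) c) S
  have e : ⇑((Matrix.toLin' M).toAffineMap + AffineMap.const ℝ (Fin n → ℝ) c) =
      fun x => M *ᵥ x + c := by
    funext x; simp
  rw [e] at this
  exact this

theorem poly_main {q : ℝ} {E : Set P2 → P2 → ℝ≥0∞} (hE : Good 1 q E) :
    ∀ (N : ℕ) (S : Finset P2), S.card ≤ N → Bd (convexHull ℝ (S : Set P2)) →
      Vp E (Dl 2) ≤ Vp E (convexHull ℝ (S : Set P2)) := by
  classical
  intro N
  induction N with
  | zero =>
    intro S hS hbd
    have : S = ∅ := by simpa using hS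
    subst this
    have := hbd.int
    simp at this
  | succ N ih =>
    intro S hS hbd
    by_cases hred : ∃ x ∈ S, x ∈ convexHull ℝ ((S : Set P2) \ {x})
    · obtain ⟨x, hx, hx2⟩ := hred
      have e := hull_erase hx2
      rw [e]
      rw [e] at hbd
      have e2 : (S : Set P2) \ {x} = ((S.erase x : Finset P2) : Set P2) := by simp
      rw [e2] at hbd ⊢
      refine ih _ ?_ hbd
      rw [Finset.card_erase_of_mem hx]
      omega
    push Not at hred
    have hne : S.Nonempty := by
      by_contra h
      rw [Finset.not_nonempty_iff_eq_empty] at h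
      subst h
      have := hbd.int
      simp at this
    obtain ⟨v, hv⟩ := hne
    have hins : (S : Set P2) = insert v ((S : Set P2) \ {v}) := by
      rw [insert_sdiff_self_of_mem hv]
    have hfin : ((S : Set P2) \ {v}).Finite := S.finite_toSet.sdiff
    obtain ⟨u, hu, w, hw, hD, hcone⟩ := frame hfin (hred v hv) (hins ▸ hbd.int)
    set D := cr (u - v) (w - v) with hDdef
    -- barycentric coordinates
    have hab : ∀ s ∈ (S : Set P2) \ {v}, ∃ a b : ℝ, 0 ≤ a ∧ 0 ≤ b ∧
        s = v + a • (u - v) + b • (w - v) := by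
      intro s hs
      obtain ⟨c1, c2⟩ := hcone s hs
      refine ⟨cr (s - v) (w - v) / D, cr (u - v) (s - v) / D, div_nonneg c1 hD.le,
        div_nonneg c2 hD.le, ?_⟩
      have hD' := hD.ne'
      funext i
      fin_cases i
      · simp only [Fin.zero_eta, Pi.add_apply, Pi.smul_apply, smul_eq_mul, Pi.sub_apply]
        field_simp
        simp only [hDdef, cr, Pi.sub_apply]
        ring
      · simp only [Fin.mk_one, Pi.add_apply, Pi.smul_apply, smul_eq_mul, Pi.sub_apply]
        field_simp
        simp only [hDdef, cr, Pi.sub_apply]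
        ring
    set M : Matrix (Fin 2) (Fin 2) ℝ := !![w 0 - u 0, v 0 - u 0; w 1 - u 1, v 1 - u 1] with hM
    have hMdet : M.det ≠ 0 := by
      have : M.det = D := by
        rw [hM, Matrix.det_fin_two_of]
        simp only [hDdef, cr, Pi.sub_apply]
        ring
      rw [this]; exact hD.ne'
    have hMi : M⁻¹.det ≠ 0 := by
      rw [Matrix.det_nonsing_inv]
      simpa using hMdet
    set B : P2 → P2 := fun x => M⁻¹ *ᵥ x + (-(M⁻¹ *ᵥ u)) with hB
    have hBA : ∀ x : P2, B (M *ᵥ x + u) = x := by
      intro x
      simp only [hB]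
      rw [Matrix.mulVec_add, (mat_inv hMdet x).1]
      abel
    have hA : ∀ a b : ℝ, M *ᵥ ![a, b] + u = u + a • (w - u) + b • (v - u) := by
      intro a b
      funext i
      fin_cases i
      · simp [hM]; ring
      · simp [hM]; ring
    have hBs : ∀ a b : ℝ, B (v + a • (u - v) + b • (w - v)) = ![b, 1 - a - b] := by
      intro a b
      rw [← hBA ![b, 1 - a - b], hA]
      congr 1
      funext i
      simp only [Pi.add_apply, Pi.smul_apply, smul_eq_mul, Pi.sub_apply]
      ring
    have hBu : B u = ![0, 0] := by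
      have := hBs 1 0
      simpa using this
    have hBw : B w = ![1, 0] := by
      have := hBs 0 1
      simpa using this
    have hBv : B v = ![0, 1] := by
      have := hBs 0 0
      simpa using this
    have hinj : Function.Injective B := by
      intro x y hxy
      simp only [hB, add_left_inj] at hxy
      have := congrArg (M *ᵥ ·) hxy
      simpa only [(mat_inv hMdet _).2] using this
    set T : Finset P2 := (S.erase v).image B with hT
    have hTcoe : insert ![0, 1] (T : Set P2) = B '' (S : Set P2) := by
      rw [hT, Finset.coe_image, Finset.coe_erase, ← hBv, ← image_insert_eq, ← hins]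
    have hcard : T.card ≤ N := by
      refine Finset.card_image_le.trans ?_
      rw [Finset.card_erase_of_mem hv]
      omega
    have hVp : Vp E (convexHull ℝ (S : Set P2)) =
        Vp E (convexHull ℝ (insert ![0, 1] (T : Set P2))) := by
      rw [hTcoe, ← image_hull, Vp_aff hE hbd hMi]
    rw [hVp]
    refine step_normal hE ?_ ?_ ?_ ?_ ?_
    · rw [hT, Finset.mem_image]
      exact ⟨u, Finset.mem_erase.2 ⟨hu.2, hu.1⟩, hBu⟩
    · rw [hT, Finset.mem_image]
      exact ⟨w, Finset.mem_erase.2 ⟨hw.2, hw.1⟩, hBw⟩
    · intro s hs n0 n1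
      rw [hT, Finset.mem_image] at hs
      obtain ⟨r, hr, rfl⟩ := hs
      rw [Finset.mem_erase] at hr
      obtain ⟨a, b, ha, hb, hrab⟩ := hab r ⟨hr.2, hr.1⟩
      have hru : r ≠ u := by
        rintro rfl; exact n0 hBu
      have hrw : r ≠ w := by
        rintro rfl; exact n1 hBw
      have hgt : 1 < a + b := by
        by_contra hle
        push Not at hle
        refine hred r hr.2 ?_
        have hv' : v ∈ convexHull ℝ ((S : Set P2) \ {r}) :=
          subset_convexHull ℝ _ ⟨hv, fun h => hr.1 h.symm⟩
        have hu' : u ∈ convexHull ℝ ((S : Set P2) \ {r}) :=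
          subset_convexHull ℝ _ ⟨hu.1, fun h => hru h.symm⟩
        have hw' : w ∈ convexHull ℝ ((S : Set P2) \ {r}) :=
          subset_convexHull ℝ _ ⟨hw.1, fun h => hrw h.symm⟩
        have := (convex_convexHull ℝ ((S : Set P2) \ {r})).sum_mem
          (t := Finset.univ) (w := ![1 - a - b, a, b]) (z := ![v, u, w])
          (by intro i _; fin_cases i <;> simp <;> linarith)
          (by rw [Fin.sum_univ_three]; simp; ring)
          (by intro i _; fin_cases i <;> assumption)
        rw [Fin.sum_univ_three] at this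
        have e : r = (1 - a - b) • v + a • u + b • w := by
          rw [hrab]
          funext i
          simp only [Pi.add_apply, Pi.smul_apply, smul_eq_mul, Pi.sub_apply]
          ring
        have e' : (1 - a - b) • v + a • u + b • w ∈ convexHull ℝ ((S : Set P2) \ {r}) := this
        rwa [← e] at e'
      have e := hBs a b
      rw [← hrab] at e
      rw [e]
      simp only [Matrix.cons_val_zero, Matrix.cons_val_one, Matrix.cons_val_fin_one]
      exact ⟨by linarith, hb, by linarith⟩
    · rw [hTcoe, ← image_hull]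
      exact hbd.aff hMi _
    · intro R hR hb
      exact ih R (hR.trans hcard) hb

end Pool.Agent.Helper72.LM
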