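import Pool.Agent.Helper72.LM.Half

set_option autoImplicit false
open MeasureTheory Set
open scoped ENNReal

namespace Pool.Agent.Helper72.LM

variable {m : ℕ}

/-- a compact set with nonempty interior -/
structure Bd {n : ℕ} (K : Set (Fin n → ℝ)) : Prop where
  cpt : IsCompact K
  int : (interior K).Nonempty

/-- shear in the direction of the first coordinate vector -/
def sh (α : (Fin (m + 1) → ℝ) → ℝ) (t : ℝ) (x : Fin (m + 1) → ℝ) : Fin (m + 1) → ℝ :=
  x + Pi.single 0 (t * α x)

/-- admissible speed functions -/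
structure Sp (α : (Fin (m + 1) → ℝ) → ℝ) : Prop where
  cont : Continuous α
  inv : ∀ (x : Fin (m + 1) → ℝ) (s : ℝ), α (x + Pi.single 0 s) = α x

theorem sh_sh {α : (Fin (m + 1) → ℝ) → ℝ} (hα : Sp α) (s t : ℝ) (x : Fin (m + 1) → ℝ) :
    sh α s (sh α t x) = sh α (s + t) x := by
  unfold sh
  rw [hα.inv, add_assoc, ← Pi.single_add]
  congr 2
  ring

theorem sh_zero (α : (Fin (m + 1) → ℝ) → ℝ) (x : Fin (m + 1) → ℝ) : sh α 0 x = x := by
  unfold sh; simp

theorem continuous_sh {α : (Fin (m + 1) → ℝ) → ℝ} (hα : Sp α) (t : ℝ) : Continuous (sh α t) := by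
  unfold sh
  have := hα.cont
  exact continuous_id.add ((continuous_single (A := fun _ : Fin (m+1) => ℝ) 0).comp
    (continuous_const.mul this))

theorem sh_image {α : (Fin (m + 1) → ℝ) → ℝ} (hα : Sp α) (t : ℝ) (K : Set (Fin (m + 1) → ℝ)) :
    sh α t '' K = sh α (-t) ⁻¹' K := by
  ext x
  constructor
  · rintro ⟨y, hy, rfl⟩
    simp only [mem_preimage]
    rw [sh_sh hα, neg_add_cancel, sh_zero]
    exact hy
  · intro h
    exact ⟨_, h, by rw [sh_sh hα, add_neg_cancel, sh_zero]⟩

theorem Bd.sh {α : (Fin (m + 1) → ℝ) → ℝ} (hα : Sp α) (t : ℝ) {K : Set (Fin (m + 1) → ℝ)}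
    (hK : Bd K) : Bd (sh α t '' K) := by
  refine ⟨hK.cpt.image (continuous_sh hα t), ?_⟩
  have h1 : IsOpen (LM.sh α t '' interior K) := by
    rw [sh_image hα]
    exact isOpen_interior.preimage (continuous_sh hα _)
  have h2 : LM.sh α t '' interior K ⊆ interior (LM.sh α t '' K) :=
    interior_maximal (image_mono interior_subset) h1
  exact (hK.int.image _).mono h2

theorem sh_cons {α : (Fin (m + 1) → ℝ) → ℝ} (hα : Sp α) (t : ℝ) (u : ℝ) (y : Fin m → ℝ) :
    sh α t (Fin.cons u y) = Fin.cons (u + t * α (Fin.cons 0 y)) y := by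
  unfold sh
  have e : α (Fin.cons u y) = α (Fin.cons 0 y) := by
    rw [← hα.inv (Fin.cons 0 y) u]
    congr 1
    funext i
    refine Fin.cases ?_ (fun j => ?_) i <;> simp
  rw [e]
  funext i
  refine Fin.cases ?_ (fun j => ?_) i <;> simp

theorem mp_sh {α : (Fin (m + 1) → ℝ) → ℝ} (hα : Sp α) (t : ℝ) :
    MeasurePreserving (sh α t) (volume : Measure (Fin (m + 1) → ℝ)) volume := by
  set e := MeasurableEquiv.piFinSuccAbove (fun _ : Fin (m + 1) => ℝ) 0 with he
  have h0 := volume_preserving_piFinSuccAbove (fun _ : Fin (m + 1) => ℝ) 0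
  have cα : Continuous fun y : Fin m → ℝ => α (Fin.cons 0 y) :=
    hα.cont.comp (continuous_const.finCons continuous_id)
  have h1 : MeasurePreserving (fun q : (Fin m → ℝ) × ℝ => (id q.1, q.2 + t * α (Fin.cons 0 q.1)))
      (volume.prod volume) (volume.prod volume) := by
    refine MeasurePreserving.skew_product (MeasurePreserving.id _)
      (g := fun (y : Fin m → ℝ) (u : ℝ) => u + t * α (Fin.cons 0 y)) ?_ ?_
    · apply Continuous.measurable
      unfold Function.uncurry
      exact continuous_snd.add (continuous_const.mul (cα.comp continuous_fst))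
    · refine Filter.Eventually.of_forall fun y => ?_
      exact (measurePreserving_add_right volume _).map_eq
  have h2 := (h0.symm e).comp ((Measure.measurePreserving_swap (μ := (volume : Measure (Fin m → ℝ)))
    (ν := (volume : Measure ℝ))).comp
    (h1.comp ((Measure.measurePreserving_swap (μ := (volume : Measure ℝ))
    (ν := (volume : Measure (Fin m → ℝ)))).comp h0)))
  have e1 : sh α t = e.symm ∘ (Prod.swap ∘ ((fun q : (Fin m → ℝ) × ℝ =>
      (id q.1, q.2 + t * α (Fin.cons 0 q.1))) ∘ (Prod.swap ∘ e))) := by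
    funext x
    obtain ⟨⟨u, y⟩, rfl⟩ := e.symm.surjective x
    simp only [Function.comp_apply, MeasurableEquiv.apply_symm_apply, Prod.swap, id]
    rw [he, cons_eq, cons_eq, sh_cons hα]
  rw [e1]
  exact h2

theorem emb_sh {α : (Fin (m + 1) → ℝ) → ℝ} (hα : Sp α) (t : ℝ) :
    MeasurableEmbedding (sh α t) := by
  have : MeasurableEmbedding (⟨⟨sh α t, sh α (-t),
    fun x => by rw [sh_sh hα, neg_add_cancel, sh_zero],
    fun x => by rw [sh_sh hα, add_neg_cancel, sh_zero]⟩, (continuous_sh hα t).measurable,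
      (continuous_sh hα (-t)).measurable⟩ : (Fin (m + 1) → ℝ) ≃ᵐ (Fin (m + 1) → ℝ)) :=
    MeasurableEquiv.measurableEmbedding _
  exact this

theorem lintegral_sh {α : (Fin (m + 1) → ℝ) → ℝ} (hα : Sp α) (t : ℝ)
    (K : Set (Fin (m + 1) → ℝ)) (g : (Fin (m + 1) → ℝ) → ℝ≥0∞) :
    ∫⁻ x in sh α t '' K, g x = ∫⁻ x in K, g (sh α t x) :=
  ((mp_sh hα t).setLIntegral_comp_emb (emb_sh hα t) g K).symm

theorem volume_sh {α : (Fin (m + 1) → ℝ) → ℝ} (hα : Sp α) (t : ℝ)
    (K : Set (Fin (m + 1) → ℝ)) : volume (sh α t '' K) = volume K := by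
  have := lintegral_sh hα t K (fun _ => 1)
  simpa using this

end Pool.Agent.Helper72.LM
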